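import Pool.Agent.H683.MC.Defs
import Pool.Graph.R_seed8.H628R2.FPTW
import Pool.Graph.R_seed8.H633R2.Fpt

/-!
# Deciding existential first-order model checking by exhaustive search
-/

set_option autoImplicit false

namespace Pool.Agent.NPC.H683MC

open Turing Pool.Agent.H683.MC Pool.Agent.H633R2

/-- The second component, or `0`. -/
def optv : Option (ℕ × ℕ) → ℕ
  | none => 0
  | some p => p.2

theorem poly_optv : Poly optv :=
  (Poly.optCases (o := fun x : Option (ℕ × ℕ) => x) (g := fun _ => 0) (h := fun _ p => p.2)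
    Poly.id (Poly.const 0) (Poly.snd (Poly.snd Poly.id))).congr fun x => by cases x <;> rfl

/-- Looking up a value. -/
def look (v : List (ℕ × ℕ)) (x : ℕ) : ℕ := optv (v.filter fun p => decide (p.1 = x)).head?

theorem look_cons_self (v : List (ℕ × ℕ)) (x a : ℕ) : look ((x, a) :: v) x = a := by
  simp [look, optv]

theorem look_cons_of_ne (v : List (ℕ × ℕ)) {x y : ℕ} (a : ℕ) (h : y ≠ x) :
    look ((y, a) :: v) x = look v x := by
  simp [look, h]

theorem poly_look : Poly (fun x : List (ℕ × ℕ) × ℕ => look x.1 x.2) := by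
  have h1 : Poly (fun x : List (ℕ × ℕ) × ℕ => (x.1.filter fun p => decide (p.1 = x.2)).head?) := by
    refine Poly.head? (Poly.filter (l := fun x : List (ℕ × ℕ) × ℕ => x.1)
      (p := fun x p => decide (p.1 = x.2)) (Poly.fst Poly.id) ?_)
    exact Poly.decide_eq (Poly.fst (Poly.snd Poly.id)) (Poly.snd (Poly.fst Poly.id))
  exact Poly.comp (g := optv) poly_optv h1

/-- Evaluation of the letters of a formula with a stack of truth values. -/
def evTok (A : Struc) (v : List (ℕ × ℕ)) (s : List Bool) (t : Tok) : List Bool :=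
  match t with
  | Sum.inl p => decide (look v p.1 = look v p.2) :: s
  | Sum.inr t' => match t' with
    | Sum.inl p => decide (p.2.map (look v) ∈ A.tuples p.1) :: s
    | Sum.inr o => match s with
      | [] => []
      | b :: s' => match o with
        | none => (!b) :: s'
        | some c => match s' with
          | [] => []
          | a :: s'' => (bif c then a || b else a && b) :: s''

theorem evTok_word (A : Struc) (v : List (ℕ × ℕ)) (φ : QF) :
    ∃ b : Bool, (b = true ↔ φ.Sat A (look v)) ∧
      ∀ s : List Bool, φ.word.foldl (evTok A v) s = b :: s := by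
  induction φ with
  | eq x y => exact ⟨decide (look v x = look v y), decide_eq_true_iff, fun s => rfl⟩
  | rel R xs =>
    exact ⟨decide (xs.map (look v) ∈ A.tuples R), decide_eq_true_iff, fun s => rfl⟩
  | neg φ ih =>
    obtain ⟨b, hb, h⟩ := ih
    refine ⟨!b, ?_, fun s => ?_⟩
    · rw [QF.Sat, ← hb]; cases b <;> simp
    · rw [QF.word, List.foldl_append, h]; rfl
  | conj φ ψ ih ih' =>
    obtain ⟨b, hb, h⟩ := ih
    obtain ⟨c, hc, h'⟩ := ih'
    refine ⟨b && c, ?_, fun s => ?_⟩
    · rw [QF.Sat, ← hb, ← hc]; cases b <;> cases c <;> simp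
    · rw [QF.word, List.foldl_append, h, List.foldl_append, h']; rfl
  | disj φ ψ ih ih' =>
    obtain ⟨b, hb, h⟩ := ih
    obtain ⟨c, hc, h'⟩ := ih'
    refine ⟨b || c, ?_, fun s => ?_⟩
    · rw [QF.Sat, ← hb, ← hc]; cases b <;> cases c <;> simp
    · rw [QF.word, List.foldl_append, h, List.foldl_append, h']; rfl

theorem evTok_length (A : Struc) (v : List (ℕ × ℕ)) (s : List Bool) (t : Tok) :
    (evTok A v s t).length ≤ s.length + 1 := by
  rcases t with p | p | o
  · simp [evTok]
  · simp [evTok]
  · rcases s with _ | ⟨b, s⟩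
    · simp [evTok]
    · rcases o with _ | c
      · simp [evTok]
      · rcases s with _ | ⟨a, s⟩
        · simp [evTok]
        · simp [evTok]

theorem foldl_evTok_length (A : Struc) (v : List (ℕ × ℕ)) (w : List Tok) :
    ∀ s : List Bool, (w.foldl (evTok A v) s).length ≤ s.length + w.length := by
  induction w with
  | nil => intro s; simp
  | cons t w ih =>
    intro s
    have h1 := ih (evTok A v s t)
    have h2 := evTok_length A v s t
    simp only [List.foldl_cons, List.length_cons]
    omega

abbrev EIn : Type := (Struc × List (ℕ × ℕ)) × (List Bool × Tok)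

theorem poly_evTok : Poly (fun x : EIn => evTok x.1.1 x.1.2 x.2.1 x.2.2) := by
  refine (Poly.sumCases (o := fun x : EIn => x.2.2)
    (g := fun x p => decide (look x.1.2 p.1 = look x.1.2 p.2) :: x.2.1)
    (h := fun x (t' : (ℕ × List ℕ) ⊕ Option Bool) => match t' with
      | Sum.inl p => decide (p.2.map (look x.1.2) ∈ x.1.1.tuples p.1) :: x.2.1
      | Sum.inr o => match x.2.1 with
        | [] => []
        | b :: s' => match o with
          | none => (!b) :: s'
          | some c => match s' with
            | [] => []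
            | a :: s'' => (bif c then a || b else a && b) :: s'')
    (Poly.snd (Poly.snd Poly.id)) ?_ ?_).congr fun x => ?_
  · refine Poly.cons (Poly.decide_eq ?_ ?_) (Poly.fst (Poly.snd (Poly.fst Poly.id)))
    · exact Poly.comp (g := fun x : List (ℕ × ℕ) × ℕ => look x.1 x.2)
        (f := fun x : EIn × (ℕ × ℕ) => (x.1.1.2, x.2.1)) poly_look
        (Poly.pair (Poly.snd (Poly.fst (Poly.fst Poly.id))) (Poly.fst (Poly.snd Poly.id)))
    · exact Poly.comp (g := fun x : List (ℕ × ℕ) × ℕ => look x.1 x.2)
        (f := fun x : EIn × (ℕ × ℕ) => (x.1.1.2, x.2.2)) poly_look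
        (Poly.pair (Poly.snd (Poly.fst (Poly.fst Poly.id))) (Poly.snd (Poly.snd Poly.id)))
  · refine (Poly.sumCases (o := fun x : EIn × ((ℕ × List ℕ) ⊕ Option Bool) => x.2)
      (g := fun x p => decide (p.2.map (look x.1.1.2) ∈ x.1.1.1.tuples p.1) :: x.1.2.1)
      (h := fun x (o : Option Bool) => match x.1.2.1 with
        | [] => []
        | b :: s' => match o with
          | none => (!b) :: s'
          | some c => match s' with
            | [] => []
            | a :: s'' => (bif c then a || b else a && b) :: s'')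
      (Poly.snd Poly.id) ?_ ?_).congr fun x => ?_
    · have h1 : Poly (fun x : (EIn × ((ℕ × List ℕ) ⊕ Option Bool)) × (ℕ × List ℕ) =>
          x.2.2.map (look x.1.1.1.2)) := by
        refine Poly.map (l := fun x : (EIn × ((ℕ × List ℕ) ⊕ Option Bool)) × (ℕ × List ℕ) =>
          x.2.2) (F := fun x y => look x.1.1.1.2 y) (Poly.snd (Poly.snd Poly.id)) ?_
        exact Poly.comp (g := fun x : List (ℕ × ℕ) × ℕ => look x.1 x.2)
          (f := fun x : ((EIn × ((ℕ × List ℕ) ⊕ Option Bool)) × (ℕ × List ℕ)) × ℕ =>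
            (x.1.1.1.1.2, x.2)) poly_look
          (Poly.pair (Poly.snd (Poly.fst (Poly.fst (Poly.fst (Poly.fst Poly.id)))))
            (Poly.snd Poly.id))
      have h2 : Poly (fun x : (EIn × ((ℕ × List ℕ) ⊕ Option Bool)) × (ℕ × List ℕ) =>
          x.1.1.1.1.tuples x.2.1) := by
        unfold Struc.tuples
        refine Poly.snd (Poly.getD ?_ ?_ (Poly.const _))
        · exact Poly.snd (Poly.fst (Poly.fst (Poly.fst (Poly.fst Poly.id))))
        · exact Poly.fst (Poly.snd Poly.id)
      exact Poly.cons ((Poly.decide_mem h1 h2).congr fun a => decide_eq_decide.2 Iff.rfl)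
        (Poly.fst (Poly.snd (Poly.fst (Poly.fst Poly.id))))
    · refine (Poly.listCases
        (l := fun x : (EIn × ((ℕ × List ℕ) ⊕ Option Bool)) × Option Bool => x.1.1.2.1)
        (g := fun _ => []) (h := fun x b s' => match x.2 with
          | none => (!b) :: s'
          | some c => match s' with
            | [] => []
            | a :: s'' => (bif c then a || b else a && b) :: s'')
        (Poly.fst (Poly.snd (Poly.fst (Poly.fst Poly.id)))) (Poly.const []) ?_).congr fun x => ?_
      refine (Poly.optCases (o := fun x : ((EIn × ((ℕ × List ℕ) ⊕ Option Bool)) × Option Bool) ×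
        (Bool × List Bool) => x.1.2) (g := fun x => (!x.2.1) :: x.2.2)
        (h := fun x c => match x.2.2 with
            | [] => []
            | a :: s'' => (bif c then a || x.2.1 else a && x.2.1) :: s'')
        (Poly.snd (Poly.fst Poly.id)) ?_ ?_).congr fun x => ?_
      · exact Poly.cons (Poly.not (Poly.fst (Poly.snd Poly.id))) (Poly.snd (Poly.snd Poly.id))
      · refine (Poly.listCases (l := fun x : (((EIn × ((ℕ × List ℕ) ⊕ Option Bool)) × Option Bool) ×
          (Bool × List Bool)) × Bool => x.1.2.2) (g := fun _ => [])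
          (h := fun x a s'' => (bif x.2 then a || x.1.2.1 else a && x.1.2.1) :: s'')
          (Poly.snd (Poly.snd (Poly.fst Poly.id))) (Poly.const []) ?_).congr fun x => ?_
        · have hb : Poly (fun x : ((((EIn × ((ℕ × List ℕ) ⊕ Option Bool)) × Option Bool) ×
            (Bool × List Bool)) × Bool) × (Bool × List Bool) => x.1.1.2.1) :=
            Poly.fst (Poly.snd (Poly.fst (Poly.fst Poly.id)))
          have ha : Poly (fun x : ((((EIn × ((ℕ × List ℕ) ⊕ Option Bool)) × Option Bool) ×
            (Bool × List Bool)) × Bool) × (Bool × List Bool) => x.2.1) :=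
            Poly.fst (Poly.snd Poly.id)
          exact Poly.cons (Poly.cond (Poly.snd (Poly.fst Poly.id)) (Poly.or ha hb)
            (Poly.and ha hb)) (Poly.snd (Poly.snd Poly.id))
        · rcases x.1.2.2 with _ | ⟨a, l⟩ <;> rfl
      · rcases x.1.2 with _ | c
        · rfl
        · rcases x.2.2 with _ | ⟨a, l⟩ <;> rfl
      · rcases x.1.1.2.1 with _ | ⟨b, l⟩
        · rfl
        · rcases x.2 with _ | c
          · rfl
          · rcases l with _ | ⟨a, l⟩ <;> rfl
    · rcases x.2 with p | o
      · rfl
      · rcases x.1.2.1 with _ | ⟨b, l⟩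
        · rfl
        · rcases o with _ | c
          · rfl
          · rcases l with _ | ⟨a, l⟩ <;> rfl
  · unfold evTok
    rcases x.2.2 with p | p | o
    · rfl
    · rfl
    · rcases x.2.1 with _ | ⟨b, l⟩
      · rfl
      · rcases o with _ | c
        · rfl
        · rcases l with _ | ⟨a, l⟩ <;> rfl

theorem poly_word : Poly QF.word := Poly.id (α := QF)

/-- Evaluation of a quantifier-free formula under an assignment given by a list. -/
def evalW (A : Struc) (v : List (ℕ × ℕ)) (φ : QF) : Bool :=
  (φ.word.foldl (evTok A v) []).head?.getD false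

theorem evalW_iff (A : Struc) (v : List (ℕ × ℕ)) (φ : QF) :
    evalW A v φ = true ↔ φ.Sat A (look v) := by
  obtain ⟨b, hb, h⟩ := evTok_word A v φ
  rw [evalW, h, ← hb]
  rfl

theorem poly_evalW : Poly (fun x : (Struc × List (ℕ × ℕ)) × QF => evalW x.1.1 x.1.2 x.2) := by
  unfold evalW
  refine Poly.head?_getD (l := fun x : (Struc × List (ℕ × ℕ)) × QF =>
    x.2.word.foldl (evTok x.1.1 x.1.2) []) ?_ false
  have h1 : Poly (fun x : (Struc × List (ℕ × ℕ)) × QF => x.2.word) :=
    Poly.comp (g := QF.word) (f := fun x : (Struc × List (ℕ × ℕ)) × QF => x.2) poly_word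
      (Poly.snd Poly.id)
  refine Poly.foldl (l := fun x : (Struc × List (ℕ × ℕ)) × QF => x.2.word) (s := fun _ => [])
    (F := fun x s t => evTok x.1.1 x.1.2 s t) h1 (Poly.const []) ?_
    (Polynomial.C 4 * Polynomial.X + 1) ?_
  · exact Poly.comp (g := fun x : EIn => evTok x.1.1 x.1.2 x.2.1 x.2.2)
      (f := fun p : ((Struc × List (ℕ × ℕ)) × QF) × List Bool × Tok => (p.1.1, p.2)) poly_evTok
      (Poly.pair (Poly.fst (Poly.fst Poly.id)) (Poly.snd Poly.id))
  · intro a k hk
    change sz (List.foldl (evTok a.1.1 a.1.2) [] (a.2.word.take k)) ≤ _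
    refine (sz_listBool_le _).trans ?_
    have h2 := foldl_evTok_length a.1.1 a.1.2 (a.2.word.take k) []
    have h3 : (a.2.word.take k).length ≤ a.2.word.length := by simp
    have h4 := length_lt_sz a.2.word
    have h5 : sz a.2.word = sz a.2 := rfl
    have h6 : sz a = sz a.1 + sz a.2 + 1 := sz_pair a.1 a.2
    simp only [Polynomial.eval_add, Polynomial.eval_mul, Polynomial.eval_C, Polynomial.eval_X,
      Polynomial.eval_one]
    simp only [List.length_nil] at h2
    omega

/-! ### Removing repetitions -/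

/-- Removing repetitions. -/
def ded (l : List ℕ) : List ℕ := l.foldr (fun x acc => if x ∈ acc then acc else x :: acc) []

theorem ded_eq (l : List ℕ) : ded l = l.dedup := by
  induction l with
  | nil => rfl
  | cons x l ih =>
    have h1 : ded (x :: l) = if x ∈ ded l then ded l else x :: ded l := rfl
    rw [h1, ih]
    by_cases h : x ∈ l
    · rw [List.dedup_cons_of_mem h, if_pos (List.mem_dedup.2 h)]
    · rw [List.dedup_cons_of_notMem h, if_neg (fun h' => h (List.mem_dedup.1 h'))]

theorem poly_ded : Poly ded := by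
  unfold ded
  refine Poly.foldr (l := fun l : List ℕ => l) (s := fun _ => [])
    (F := fun _ x acc => if x ∈ acc then acc else x :: acc) Poly.id (Poly.const []) ?_
    Polynomial.X ?_
  · refine Poly.ite (p := fun p : List ℕ × ℕ × List ℕ => p.2.1 ∈ p.2.2) ?_
      (Poly.snd (Poly.snd Poly.id))
      (Poly.cons (Poly.fst (Poly.snd Poly.id)) (Poly.snd (Poly.snd Poly.id)))
    exact (Poly.decide_mem (f := fun p : List ℕ × ℕ × List ℕ => p.2.1) (l := fun p => p.2.2)
      (Poly.fst (Poly.snd Poly.id)) (Poly.snd (Poly.snd Poly.id))).congr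
        fun a => decide_eq_decide.2 Iff.rfl
  · intro l k _
    have h1 : ∀ l : List ℕ, sz (ded l) ≤ sz l := by
      intro l
      induction l with
      | nil => exact le_rfl
      | cons x l ih =>
        have h1 : ded (x :: l) = if x ∈ ded l then ded l else x :: ded l := rfl
        rw [h1]
        split_ifs
        · simp; omega
        · simp; omega
    have h2 := h1 (l.drop k)
    have h3 := Poly.sz_drop_le l k
    rw [Polynomial.eval_X]
    exact h2.trans h3

/-! ### Enumerating the assignments -/

/-- All assignments of numbers below `n` to the variables in a list. -/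
def asg (n : ℕ) (ws : List ℕ) : List (List (ℕ × ℕ)) :=
  ws.foldr (fun x acc => acc.flatMap fun L => (List.range n).map fun a => (x, a) :: L) [[]]

theorem asg_cons (n x : ℕ) (ws : List ℕ) :
    asg n (x :: ws) = (asg n ws).flatMap fun L => (List.range n).map fun a => (x, a) :: L := rfl

theorem asg_length (n : ℕ) (ws : List ℕ) : (asg n ws).length = n ^ ws.length := by
  induction ws with
  | nil => rfl
  | cons x l ih =>
    rw [asg_cons, List.length_flatMap]
    simp only [List.length_map, List.length_range, List.map_const', List.sum_replicate, ih,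
      smul_eq_mul, List.length_cons, pow_succ]

theorem map_mem_asg {n : ℕ} (v : ℕ → ℕ) (ws : List ℕ) (h : ∀ x ∈ ws, v x < n) :
    (ws.map fun x => (x, v x)) ∈ asg n ws := by
  induction ws with
  | nil => simp [asg]
  | cons x l ih =>
    rw [asg_cons, List.mem_flatMap]
    refine ⟨_, ih fun y hy => h y (List.mem_cons_of_mem _ hy), ?_⟩
    rw [List.mem_map]
    exact ⟨v x, List.mem_range.2 (h x (by simp)), rfl⟩

theorem look_lt_of_mem_asg {n : ℕ} (ws : List ℕ) :
    ∀ L ∈ asg n ws, ∀ x ∈ ws, look L x < n := by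
  induction ws with
  | nil => intro L _ x hx; simp at hx
  | cons y ws ih =>
    intro L hL x hx
    rw [asg_cons, List.mem_flatMap] at hL
    obtain ⟨L', hL', h⟩ := hL
    rw [List.mem_map] at h
    obtain ⟨a, ha, rfl⟩ := h
    by_cases hxy : y = x
    · subst hxy
      rw [look_cons_self]
      exact List.mem_range.1 ha
    · rw [look_cons_of_ne _ _ hxy]
      refine ih L' hL' x ?_
      rcases List.mem_cons.1 hx with h | h
      · exact absurd h.symm hxy
      · exact h

theorem look_map (v : ℕ → ℕ) (ws : List ℕ) : ∀ x ∈ ws, look (ws.map fun x => (x, v x)) x = v x := by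
  induction ws with
  | nil => intro x hx; simp at hx
  | cons y ws ih =>
    intro x hx
    rw [List.map_cons]
    by_cases hxy : y = x
    · subst hxy; rw [look_cons_self]
    · rw [look_cons_of_ne _ _ hxy]
      refine ih x ?_
      rcases List.mem_cons.1 hx with h | h
      · exact absurd h.symm hxy
      · exact h

theorem sz_of_mem_asg (n : ℕ) (ws : List ℕ) :
    ∀ L ∈ asg n ws, sz L ≤ (4 * n + 3) * sz ws := by
  induction ws with
  | nil =>
    intro L hL
    simp [asg] at hL
    subst hL
    simp
  | cons x l ih =>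
    intro L hL
    rw [asg_cons, List.mem_flatMap] at hL
    obtain ⟨L', hL', h⟩ := hL
    rw [List.mem_map] at h
    obtain ⟨a, ha, rfl⟩ := h
    have h1 := ih L' hL'
    have h2 : a < n := List.mem_range.1 ha
    have h3 : sz a ≤ 4 * n + 1 := (sz_nat_le a).trans (by
      have := Poly.size_le_self a
      omega)
    simp only [sz_list_cons, sz_pair]
    have h4 := sz_pos x
    nlinarith

theorem poly_asg {α : Type} [TEnc α] {l : α → List ℕ} {w n : α → List Unit} (hl : Poly l)
    (hn : Poly n) (hw : Poly w)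
    (h : ∀ a, ∀ k ≤ (l a).length, (n a).length ^ k ≤ (w a).length) :
    Poly (fun a => asg (n a).length (l a)) := by
  obtain ⟨r, hr⟩ := hl.sz_le
  obtain ⟨r', hr'⟩ := hw.sz_le
  obtain ⟨q, hq⟩ := hn.sz_le
  refine Poly.foldr (l := l) (s := fun _ => [[]])
    (F := fun a x acc => acc.flatMap fun L => (List.range (n a).length).map fun b => (x, b) :: L)
    hl (Poly.const _) ?_ (r' * ((Polynomial.C 4 * q + Polynomial.C 3) * r + 1) + 1) ?_
  · refine Poly.flatMap (l := fun p : α × ℕ × List (List (ℕ × ℕ)) => p.2.2)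
      (F := fun p L => (List.range (n p.1).length).map fun b => (p.2.1, b) :: L)
      (Poly.snd (Poly.snd Poly.id)) ?_
    refine Poly.map (l := fun p : (α × ℕ × List (List (ℕ × ℕ))) × List (ℕ × ℕ) =>
      List.range (n p.1.1).length) (F := fun p b => (p.1.2.1, b) :: p.2) ?_ ?_
    · exact Poly.range_length (Poly.comp (g := n) (f := fun p : (α × ℕ × List (List (ℕ × ℕ))) ×
        List (ℕ × ℕ) => p.1.1) hn (Poly.fst (Poly.fst Poly.id)))
    · exact Poly.cons (Poly.pair (Poly.fst (Poly.snd (Poly.fst (Poly.fst Poly.id))))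
        (Poly.snd Poly.id)) (Poly.snd (Poly.fst Poly.id))
  · intro a k hk
    change sz (asg (n a).length ((l a).drop k)) ≤ _
    refine (sz_le_length_mul _ _ (sz_of_mem_asg _ _)).trans ?_
    rw [asg_length]
    simp only [Polynomial.eval_add, Polynomial.eval_mul, Polynomial.eval_C, Polynomial.eval_one]
    have h1 := h a ((l a).drop k).length (by simp)
    have h2 := Poly.sz_drop_le (l a) k
    have h3 := hr a
    have h4 := hr' a
    have h5 := length_lt_sz (w a)
    have h7 := length_lt_sz (n a)
    have h8 := hq a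
    refine Nat.add_le_add_right (Nat.mul_le_mul ?_ ?_) 1
    · omega
    · refine Nat.add_le_add_right (Nat.mul_le_mul ?_ ?_) 1
      · omega
      · omega

/-! ### Well-formedness -/

/-- The well-formedness test for structures. -/
def strucOk (A : Struc) : Bool :=
  !(A.1.isEmpty) && A.2.all fun R => R.2.all fun t =>
    decide (t.length = R.1) && t.all fun a => decide (a < A.1.length)

theorem strucOk_iff (A : Struc) : strucOk A = true ↔ A.Ok := by
  unfold strucOk Struc.Ok
  simp only [Bool.and_eq_true, Bool.not_eq_true', List.all_eq_true, decide_eq_true_eq]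
  refine and_congr ?_ Iff.rfl
  cases A.1 <;> simp

theorem poly_strucOk : Poly strucOk := by
  unfold strucOk
  refine Poly.and (Poly.not (Poly.isEmpty (Poly.fst Poly.id))) ?_
  refine Poly.all (l := fun A : Struc => A.2) (p := fun A R => R.2.all fun t =>
    decide (t.length = R.1) && t.all fun a => decide (a < A.1.length)) (Poly.snd Poly.id) ?_
  refine Poly.all (l := fun p : Struc × (ℕ × List (List ℕ)) => p.2.2) (p := fun p t =>
    decide (t.length = p.2.1) && t.all fun a => decide (a < p.1.1.length))
    (Poly.snd (Poly.snd Poly.id)) ?_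
  refine Poly.and (Poly.decide_eq (Poly.length (Poly.snd Poly.id))
    (Poly.fst (Poly.snd (Poly.fst Poly.id)))) ?_
  refine Poly.all (l := fun p : (Struc × (ℕ × List (List ℕ))) × List ℕ => p.2)
    (p := fun p a => decide (a < p.1.1.1.length)) (Poly.snd Poly.id) ?_
  exact Poly.decide_lt (Poly.snd Poly.id)
    (Poly.length (Poly.fst (Poly.fst (Poly.fst (Poly.fst Poly.id)))))

/-- The arity test. -/
def arOk (o : Option (ℕ × List (List ℕ))) (n : ℕ) : Bool :=
  match o with
  | none => false
  | some r => decide (n = r.1)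

theorem arOk_iff (o : Option (ℕ × List (List ℕ))) (n : ℕ) :
    arOk o n = true ↔ ∃ r, o = some r ∧ n = r.1 := by
  cases o <;> simp [arOk]

theorem poly_arOk : Poly (fun x : Option (ℕ × List (List ℕ)) × ℕ => arOk x.1 x.2) :=
  (Poly.optCases (o := fun x : Option (ℕ × List (List ℕ)) × ℕ => x.1) (g := fun _ => false)
    (h := fun x r => decide (x.2 = r.1)) (Poly.fst Poly.id) (Poly.const false)
    (Poly.decide_eq (Poly.snd (Poly.fst Poly.id)) (Poly.fst (Poly.snd Poly.id)))).congr
      fun x => by
        obtain ⟨o, n⟩ := x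
        cases o <;> rfl

/-- The well-formedness test for the letters of a formula. -/
def tokOk (A : Struc) (vs : List ℕ) (t : Tok) : Bool :=
  match t with
  | Sum.inl p => decide (p.1 ∈ vs) && decide (p.2 ∈ vs)
  | Sum.inr t' => match t' with
    | Sum.inl p => arOk A.2[p.1]? p.2.length && p.2.all fun x => decide (x ∈ vs)
    | Sum.inr _ => true

theorem all_tokOk_iff (A : Struc) (vs : List ℕ) (φ : QF) :
    φ.word.all (tokOk A vs) = true ↔ φ.Ok A vs := by
  induction φ with
  | eq x y => simp [QF.word, tokOk, QF.Ok]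
  | rel R xs => simp [QF.word, tokOk, QF.Ok, arOk_iff]
  | neg φ ih => rw [QF.word, List.all_append, Bool.and_eq_true, ih]; simp [tokOk, QF.Ok]
  | conj φ ψ ih ih' =>
    rw [QF.word, List.all_append, Bool.and_eq_true, ih, List.all_append, Bool.and_eq_true, ih']
    simp [tokOk, QF.Ok]
  | disj φ ψ ih ih' =>
    rw [QF.word, List.all_append, Bool.and_eq_true, ih, List.all_append, Bool.and_eq_true, ih']
    simp [tokOk, QF.Ok]

abbrev OIn : Type := (Struc × List ℕ) × Tok

theorem poly_tokOk : Poly (fun x : OIn => tokOk x.1.1 x.1.2 x.2) := by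
  refine (Poly.sumCases (o := fun x : OIn => x.2)
    (g := fun x p => decide (p.1 ∈ x.1.2) && decide (p.2 ∈ x.1.2))
    (h := fun x (t' : (ℕ × List ℕ) ⊕ Option Bool) => match t' with
      | Sum.inl p => arOk x.1.1.2[p.1]? p.2.length && p.2.all fun y => decide (y ∈ x.1.2)
      | Sum.inr _ => true) (Poly.snd Poly.id) ?_ ?_).congr fun x => ?_
  · refine Poly.and ?_ ?_
    · exact (Poly.decide_mem (f := fun p : OIn × (ℕ × ℕ) => p.2.1) (l := fun p => p.1.1.2)
        (Poly.fst (Poly.snd Poly.id)) (Poly.snd (Poly.fst (Poly.fst Poly.id)))).congr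
          fun a => decide_eq_decide.2 Iff.rfl
    · exact (Poly.decide_mem (f := fun p : OIn × (ℕ × ℕ) => p.2.2) (l := fun p => p.1.1.2)
        (Poly.snd (Poly.snd Poly.id)) (Poly.snd (Poly.fst (Poly.fst Poly.id)))).congr
          fun a => decide_eq_decide.2 Iff.rfl
  · refine (Poly.sumCases (o := fun x : OIn × ((ℕ × List ℕ) ⊕ Option Bool) => x.2)
      (g := fun x p => arOk x.1.1.1.2[p.1]? p.2.length && p.2.all fun y => decide (y ∈ x.1.1.2))
      (h := fun x (_ : Option Bool) => true) (Poly.snd Poly.id) ?_ (Poly.const true)).congr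
        fun x => ?_
    · refine Poly.and ?_ ?_
      · refine Poly.comp (g := fun x : Option (ℕ × List (List ℕ)) × ℕ => arOk x.1 x.2)
          (f := fun x : (OIn × ((ℕ × List ℕ) ⊕ Option Bool)) × (ℕ × List ℕ) =>
            (x.1.1.1.1.2[x.2.1]?, x.2.2.length)) poly_arOk (Poly.pair ?_
              (Poly.length (Poly.snd (Poly.snd Poly.id))))
        exact Poly.getElem? (Poly.snd (Poly.fst (Poly.fst (Poly.fst (Poly.fst Poly.id)))))
          (Poly.fst (Poly.snd Poly.id))
      · refine Poly.all (l := fun x : (OIn × ((ℕ × List ℕ) ⊕ Option Bool)) × (ℕ × List ℕ) =>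
          x.2.2) (p := fun x y => decide (y ∈ x.1.1.1.2)) (Poly.snd (Poly.snd Poly.id)) ?_
        exact (Poly.decide_mem
          (f := fun p : ((OIn × ((ℕ × List ℕ) ⊕ Option Bool)) × (ℕ × List ℕ)) × ℕ => p.2)
          (l := fun p => p.1.1.1.1.2) (Poly.snd Poly.id)
          (Poly.snd (Poly.fst (Poly.fst (Poly.fst (Poly.fst Poly.id)))))).congr
            fun a => decide_eq_decide.2 Iff.rfl
    · rcases x.2 with p | o <;> rfl
  · unfold tokOk
    rcases x.2 with p | p | o <;> rfl

/-! ### The algorithm -/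

/-- Exhaustive search. -/
def mcB (x : Struc × Sentence) : Bool :=
  (strucOk x.1 && x.2.2.word.all (tokOk x.1 x.2.1)) &&
    (asg x.1.1.length (ded x.2.1)).any fun v => evalW x.1 v x.2.2

theorem sat_congr (A : Struc) (vs : List ℕ) (v v' : ℕ → ℕ) (h : ∀ x ∈ vs, v x = v' x) :
    ∀ φ : QF, φ.Ok A vs → (φ.Sat A v ↔ φ.Sat A v') := by
  intro φ
  induction φ with
  | eq x y =>
    intro hφ
    rw [QF.Sat, QF.Sat, h x hφ.1, h y hφ.2]
  | rel R xs =>
    intro hφ
    rw [QF.Sat, QF.Sat, List.map_congr_left fun x hx => h x (hφ.2 x hx)]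
  | neg φ ih =>
    intro hφ
    rw [QF.Sat, QF.Sat, ih hφ]
  | conj φ ψ ih ih' =>
    intro hφ
    rw [QF.Sat, QF.Sat, ih hφ.1, ih' hφ.2]
  | disj φ ψ ih ih' =>
    intro hφ
    rw [QF.Sat, QF.Sat, ih hφ.1, ih' hφ.2]

theorem mcB_iff (x : Struc × Sentence) : mcB x = true ↔ ModelCheck x := by
  unfold mcB ModelCheck
  rw [Bool.and_eq_true, Bool.and_eq_true, strucOk_iff, all_tokOk_iff]
  refine and_congr_right fun hok => ?_
  rw [List.any_eq_true, ded_eq]
  constructor
  · rintro ⟨L, hL, h⟩
    refine ⟨look L, fun y hy => ?_, (evalW_iff _ _ _).1 h⟩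
    exact look_lt_of_mem_asg _ L hL y (List.mem_dedup.2 hy)
  · rintro ⟨v, hv, h⟩
    refine ⟨_, map_mem_asg v x.2.1.dedup fun y hy => hv y (List.mem_dedup.1 hy), ?_⟩
    rw [evalW_iff]
    refine (sat_congr x.1 x.2.1 _ v (fun y hy => ?_) x.2.2 hok.2).2 h
    exact look_map v _ y (List.mem_dedup.2 hy)

/-- The exponent of the running time of exhaustive search. -/
def ex (x : Struc × Sentence) : ℕ := (ded x.2.1).length * x.1.1.length.bits.length

theorem uPoly_ex : UPoly ex := by
  unfold ex
  refine UPoly.mul (UPoly.length ?_) (UPoly.length ?_)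
  · exact Poly.comp (g := ded) (f := fun x : Struc × Sentence => x.2.1) poly_ded
      (Poly.fst (Poly.snd Poly.id))
  · exact Poly.natBits (Poly.length (Poly.fst (Poly.fst Poly.id)))

abbrev Padded2 : Type := {y : (Struc × Sentence) × List Unit // 2 ^ ex y.1 ≤ y.2.length}

theorem poly_p2 : Poly (fun x : Padded2 => x.1.1) := Poly.fst (Poly.val _)

theorem poly_mcB : Poly (fun x : Padded2 => mcB x.1.1) := by
  unfold mcB
  refine Poly.and (Poly.and ?_ ?_) ?_
  · exact Poly.comp (g := strucOk) (f := fun x : Padded2 => x.1.1.1) poly_strucOk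
      (Poly.fst poly_p2)
  · refine Poly.all (l := fun x : Padded2 => x.1.1.2.2.word) (p := fun x t =>
      tokOk x.1.1.1 x.1.1.2.1 t) ?_ ?_
    · exact Poly.comp (g := QF.word) (f := fun x : Padded2 => x.1.1.2.2) poly_word
        (Poly.snd (Poly.snd poly_p2))
    · have h1 : Poly (fun x : Padded2 × Tok => x.1.1.1) :=
        Poly.comp (g := fun x : Padded2 => x.1.1) (f := fun x : Padded2 × Tok => x.1) poly_p2
          (Poly.fst Poly.id)
      exact Poly.comp (g := fun x : OIn => tokOk x.1.1 x.1.2 x.2)
        (f := fun x : Padded2 × Tok => ((x.1.1.1.1, x.1.1.1.2.1), x.2)) poly_tokOk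
        (Poly.pair (Poly.pair (Poly.fst h1) (Poly.fst (Poly.snd h1))) (Poly.snd Poly.id))
  · refine Poly.any (l := fun x : Padded2 => asg x.1.1.1.1.length (ded x.1.1.2.1))
      (p := fun x v => evalW x.1.1.1 v x.1.1.2.2) ?_ ?_
    · refine poly_asg (l := fun x : Padded2 => ded x.1.1.2.1) (w := fun x => x.1.2)
        (n := fun x => x.1.1.1.1) ?_ (Poly.fst (Poly.fst poly_p2)) (Poly.snd (Poly.val _)) ?_
      · exact Poly.comp (g := ded) (f := fun x : Padded2 => x.1.1.2.1) poly_ded
          (Poly.fst (Poly.snd poly_p2))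
      · intro a k hk
        refine le_trans ?_ a.2
        have h1 : a.1.1.1.1.length < 2 ^ a.1.1.1.1.length.bits.length := by
          rw [Nat.size_eq_bits_len]; exact Nat.lt_size_self _
        calc a.1.1.1.1.length ^ k ≤ (2 ^ a.1.1.1.1.length.bits.length) ^ k :=
              Nat.pow_le_pow_left h1.le k
          _ = 2 ^ (k * a.1.1.1.1.length.bits.length) := by rw [← pow_mul, mul_comm]
          _ ≤ 2 ^ ex a.1.1 := Nat.pow_le_pow_right (by norm_num) (Nat.mul_le_mul_right _ hk)
    · have h1 : Poly (fun x : Padded2 × List (ℕ × ℕ) => x.1.1.1) :=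
        Poly.comp (g := fun x : Padded2 => x.1.1) (f := fun x : Padded2 × List (ℕ × ℕ) => x.1)
          poly_p2 (Poly.fst Poly.id)
      exact Poly.comp (g := fun x : (Struc × List (ℕ × ℕ)) × QF => evalW x.1.1 x.1.2 x.2)
        (f := fun x : Padded2 × List (ℕ × ℕ) => ((x.1.1.1.1, x.2), x.1.1.1.2.2)) poly_evalW
        (Poly.pair (Poly.pair (Poly.fst h1) (Poly.snd Poly.id)) (Poly.snd (Poly.snd h1)))

theorem mcB_run : ∃ (c : Cmd ℕ) (P : Polynomial ℕ), ∀ x : Struc × Sentence,
    Runs c (inp (bits x)) (inp (bits (mcB x)))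
      (P.eval ((bits x).length + 2 ^ (2 * ex x + 4))) :=
  fpt_run mcB ex (fun n => n) uPoly_ex poly_mcB

end Pool.Agent.NPC.H683MC
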