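import Pool.Agent.H683.MC.SatPoly
import Pool.Agent.H683.MC.Brute

/-!
# The calculation of the running time
-/

set_option autoImplicit false

namespace Pool.Agent.NPC.H683MC

open Turing Pool.Agent.H683.MC Pool.Agent.H633R2

/-- `m / log m + 1` -/
def wt (m : ℕ) : ℕ := m / Nat.log 2 m + 1

theorem one_le_wt (m : ℕ) : 1 ≤ wt m := Nat.le_add_left 1 _

theorem div_bound {m E C : ℕ} (hL : 0 < Nat.log 2 m) (h : E * Nat.log 2 m ≤ C * m) :
    E ≤ C * wt m := by
  unfold wt
  have h1 : m ≤ (m / Nat.log 2 m + 1) * Nat.log 2 m := (Nat.lt_div_mul_add hL).le.trans (by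
    rw [Nat.succ_mul])
  have h2 : E * Nat.log 2 m ≤ C * (m / Nat.log 2 m + 1) * Nat.log 2 m := by
    rw [mul_assoc]
    exact h.trans (Nat.mul_le_mul_left _ h1)
  exact Nat.le_of_mul_le_mul_right h2 hL

theorem log_le_sqrt {m : ℕ} (hm : m ≠ 0) : Nat.log 2 m ≤ 2 * Nat.sqrt m := by
  set L := Nat.log 2 m
  have h1 : 2 ^ (L / 2) ≤ Nat.sqrt m := by
    rw [Nat.le_sqrt, ← pow_add]
    calc 2 ^ (L / 2 + L / 2) ≤ 2 ^ L := Nat.pow_le_pow_right (by norm_num) (by omega)
      _ ≤ m := Nat.pow_log_le_self 2 hm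
  have h2 : L / 2 < 2 ^ (L / 2) := Nat.lt_two_pow_self
  omega

theorem log_zero_of {m : ℕ} (h : Nat.log 2 m = 0) : m ≤ 1 := by
  rw [Nat.log_eq_zero_iff] at h
  omega

theorem sqrt_le_wt (m : ℕ) : Nat.sqrt m + 1 ≤ 4 * wt m := by
  rcases Nat.eq_zero_or_pos (Nat.log 2 m) with h | h
  · have h1 := log_zero_of h
    have h2 : Nat.sqrt m ≤ m := Nat.sqrt_le_self m
    unfold wt
    have h3 := Nat.zero_le (m / Nat.log 2 m)
    generalize m / Nat.log 2 m = c at *
    omega
  · refine div_bound h ?_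
    have hm : m ≠ 0 := by rintro rfl; simp at h
    have h1 := log_le_sqrt hm
    have h2 : 1 ≤ Nat.sqrt m := Nat.le_sqrt.2 (by omega)
    have h3 : Nat.sqrt m * Nat.sqrt m ≤ m := Nat.sqrt_le m
    calc (Nat.sqrt m + 1) * Nat.log 2 m ≤ (2 * Nat.sqrt m) * (2 * Nat.sqrt m) :=
          Nat.mul_le_mul (by omega) h1
      _ = 4 * (Nat.sqrt m * Nat.sqrt m) := by ring
      _ ≤ 4 * m := Nat.mul_le_mul_left _ h3

theorem sq_le_two_pow (q : ℕ) : (q + 1) * (q + 1) ≤ 4 * 2 ^ q := by
  induction q with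
  | zero => norm_num
  | succ q ih =>
    rcases Nat.lt_or_ge q 2 with h | h
    · interval_cases q <;> norm_num
    · rw [pow_succ]
      nlinarith

/-- few variables: `v log v = O(√m)` implies `v log m = O(√m)` -/
theorem var_bound {m v K : ℕ} (h : v * Nat.size (v / 2) ≤ K * (Nat.sqrt m + 1)) :
    v ≤ (K + 1) * (Nat.sqrt m + 1) ∧
      v * Nat.log 2 m ≤ (8 * K + 8) * (Nat.sqrt m + 1) := by
  set g := Nat.sqrt m + 1 with hg
  set t := Nat.size (v / 2) with ht
  have hm : m < g * g := Nat.lt_succ_sqrt m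
  have hv : v ≤ (K + 1) * g := by
    rcases Nat.eq_zero_or_pos t with h0 | h0
    · rw [h0] at ht
      have h1 : v / 2 = 0 := Nat.size_eq_zero.1 ht.symm
      have h2 : v ≤ 1 := by omega
      nlinarith [Nat.zero_le (K * g)]
    · have h1 : v ≤ v * t := Nat.le_mul_of_pos_right _ h0
      nlinarith
  refine ⟨hv, ?_⟩
  rcases Nat.eq_zero_or_pos m with rfl | hm0
  · simp
  have hv2 : v < 2 ^ (t + 1) := by
    have h1 : v / 2 < 2 ^ t := Nat.lt_size_self _
    rw [pow_succ]
    omega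
  rcases Nat.lt_or_ge (2 ^ (2 * (t + 1))) g with hc | hc
  · -- `v² < g`
    have h1 : v * v < g := by
      calc v * v ≤ 2 ^ (t + 1) * 2 ^ (t + 1) := Nat.mul_le_mul hv2.le hv2.le
        _ = 2 ^ (2 * (t + 1)) := by rw [← pow_add]; congr 1; ring
        _ < g := hc
    set q := Nat.log 2 g with hq
    have h2 : g < 2 ^ (q + 1) := Nat.lt_pow_succ_log_self (by norm_num) g
    have h3 : 2 ^ q ≤ g := Nat.pow_log_le_self 2 (by omega)
    have h4 : m < 2 ^ (2 * q + 2) := by
      calc m < g * g := hm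
        _ ≤ 2 ^ (q + 1) * 2 ^ (q + 1) := Nat.mul_le_mul h2.le h2.le
        _ = 2 ^ (2 * q + 2) := by rw [← pow_add]; congr 1; ring
    have h5 : Nat.log 2 m < 2 * q + 2 := Nat.log_lt_of_lt_pow (by omega) h4
    set L := Nat.log 2 m with hL
    have h6 : L * L ≤ 16 * g := by
      have h7 := sq_le_two_pow q
      calc L * L ≤ (2 * (q + 1)) * (2 * (q + 1)) := Nat.mul_le_mul (by omega) (by omega)
        _ = 4 * ((q + 1) * (q + 1)) := by ring
        _ ≤ 4 * (4 * 2 ^ q) := Nat.mul_le_mul_left _ h7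
        _ ≤ 16 * g := by omega
    have h7 : (v * L) * (v * L) ≤ (4 * g) * (4 * g) := by
      calc (v * L) * (v * L) = (v * v) * (L * L) := by ring
        _ ≤ g * (16 * g) := Nat.mul_le_mul h1.le h6
        _ = (4 * g) * (4 * g) := by ring
    have h8 : v * L ≤ 4 * g := Nat.mul_self_le_mul_self_iff.1 h7
    nlinarith [Nat.zero_le (K * g)]
  · have h1 : m < 2 ^ (4 * t + 4) := by
      calc m < g * g := hm
        _ ≤ 2 ^ (2 * (t + 1)) * 2 ^ (2 * (t + 1)) := Nat.mul_le_mul hc hc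
        _ = 2 ^ (4 * t + 4) := by rw [← pow_add]; congr 1; ring
    have h2 : Nat.log 2 m < 4 * t + 4 := Nat.log_lt_of_lt_pow (by omega) h1
    have h3 : v * Nat.log 2 m ≤ v * (4 * t + 4) := Nat.mul_le_mul_left _ h2.le
    nlinarith

theorem sz_ded_le (l : List ℕ) : sz (ded l) ≤ sz l := by
  induction l with
  | nil => exact le_rfl
  | cons x l ih =>
    have h1 : ded (x :: l) = if x ∈ ded l then ded l else x :: ded l := rfl
    rw [h1]
    split_ifs
    · simp; omega
    · simp; omega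

/-- Pairwise different numbers have long codes. -/
theorem nodup_sz (l : List ℕ) (hl : l.Nodup) :
    l.length * Nat.size (l.length / 2) ≤ sz l := by
  have h1 : ∀ l : List ℕ, 2 * (l.map Nat.size).sum ≤ sz l := by
    intro l
    induction l with
    | nil => simp
    | cons x l ih =>
      have := size_le_sz x
      simp
      omega
  have h2 : (l.map Nat.size).sum = ∑ x ∈ l.toFinset, Nat.size x := by
    rw [List.sum_toFinset _ hl]
  set v := l.length with hv
  have h3 : l.toFinset.card = v := List.toFinset_card_of_nodup hl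
  have h4 : (l.toFinset.filter fun x => ¬ x < v / 2).card ≥ v - v / 2 := by
    have h5 := Finset.card_filter_add_card_filter_not (s := l.toFinset) (fun x => x < v / 2)
    have h6 : (l.toFinset.filter fun x => x < v / 2).card ≤ v / 2 := by
      have : (l.toFinset.filter fun x => x < v / 2) ⊆ Finset.range (v / 2) := by
        intro x hx
        rw [Finset.mem_filter] at hx
        exact Finset.mem_range.2 hx.2
      simpa using Finset.card_le_card this
    omega
  have h5 : (v - v / 2) * Nat.size (v / 2) ≤ ∑ x ∈ l.toFinset, Nat.size x := by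
    calc (v - v / 2) * Nat.size (v / 2)
        ≤ (l.toFinset.filter fun x => ¬ x < v / 2).card * Nat.size (v / 2) :=
          Nat.mul_le_mul_right _ h4
      _ = ∑ x ∈ l.toFinset.filter (fun x => ¬ x < v / 2), Nat.size (v / 2) := by
          rw [Finset.sum_const, smul_eq_mul]
      _ ≤ ∑ x ∈ l.toFinset.filter (fun x => ¬ x < v / 2), Nat.size x := by
          refine Finset.sum_le_sum fun x hx => Nat.size_le_size ?_
          rw [Finset.mem_filter] at hx
          omega
      _ ≤ _ := Finset.sum_le_sum_of_subset (Finset.filter_subset _ _)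
  have h6 := h1 l
  have h7 : v ≤ 2 * (v - v / 2) := by omega
  calc v * Nat.size (v / 2) ≤ 2 * (v - v / 2) * Nat.size (v / 2) := Nat.mul_le_mul_right _ h7
    _ = 2 * ((v - v / 2) * Nat.size (v / 2)) := by ring
    _ ≤ sz l := by rw [← h2] at h5; omega

/-! ### Exponential bounds -/

theorem le_two_pow_mul (a : ℕ) {g : ℕ} (hg : 1 ≤ g) : a ≤ 2 ^ (a * g) := by
  calc a ≤ 2 ^ a := Nat.lt_two_pow_self.le
    _ ≤ 2 ^ (a * g) := Nat.pow_le_pow_right (by norm_num) (Nat.le_mul_of_pos_right _ hg)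

theorem add_two_pow (a b : ℕ) {g : ℕ} (hg : 1 ≤ g) :
    2 ^ (a * g) + 2 ^ (b * g) ≤ 2 ^ ((a + b + 1) * g) := by
  have h1 : 2 ^ (a * g) ≤ 2 ^ ((a + b) * g) :=
    Nat.pow_le_pow_right (by norm_num) (Nat.mul_le_mul_right _ (by omega))
  have h2 : 2 ^ (b * g) ≤ 2 ^ ((a + b) * g) :=
    Nat.pow_le_pow_right (by norm_num) (Nat.mul_le_mul_right _ (by omega))
  have h3 : 2 ^ ((a + b) * g) * 2 ≤ 2 ^ ((a + b + 1) * g) := by
    rw [← pow_succ]
    refine Nat.pow_le_pow_right (by norm_num) ?_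
    rw [Nat.succ_mul]
    omega
  omega

theorem mul_two_pow (a b g : ℕ) : 2 ^ (a * g) * 2 ^ (b * g) = 2 ^ ((a + b) * g) := by
  rw [← pow_add, Nat.add_mul]

theorem eval_two_pow (p : Polynomial ℕ) (a : ℕ) :
    ∃ C : ℕ, ∀ g, 1 ≤ g → p.eval (2 ^ (a * g)) ≤ 2 ^ (C * g) := by
  obtain ⟨C, D, h⟩ := eval_le_pow p
  refine ⟨C + a * D, fun g hg => (h _ Nat.one_le_two_pow).trans ?_⟩
  calc C * (2 ^ (a * g)) ^ D ≤ 2 ^ (C * g) * (2 ^ (a * g)) ^ D :=
        Nat.mul_le_mul_right _ (le_two_pow_mul C hg)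
    _ = 2 ^ ((C + a * D) * g) := by
      rw [← pow_mul, ← pow_add]; congr 1; ring

end Pool.Agent.NPC.H683MC
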