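import Pool.Graph.R_seed8.H633R2.FptDefs

/-!
# Bounded fixed-parameter tractability: ept-reductions, the class EW[1], and existential
first-order model checking

The machine model is Mathlib's `Turing.TM2`; instances are coded by bit strings with the encoding
`bits` (numbers in binary).
-/

set_option autoImplicit false

namespace Pool.Agent.H683.MC

open Turing Pool.Agent.NPC Pool.Agent.H633R2

/-- A parameterization `κ` is polynomial-time computable. -/
def PolyParam {α : Type} [TEnc α] (κ : α → ℕ) : Prop :=
  ∃ (M : TM2ComputableAux Bool Bool) (p : Polynomial ℕ),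
    ∀ a, TmRuns M (bits a) (bits (κ a)) (p.eval (bits a).length)

/-- Ept-reducibility between parameterized problems: a map `f` with `P a ↔ Q (f a)`, computable by
a Turing machine in time `2 ^ O(κ a) * |a| ^ O(1)`, such that the new parameter is
`O(κ a + log |a|)`. -/
def EptReduces {α β : Type} [TEnc α] [TEnc β] (κ : α → ℕ) (P : α → Prop) (κ' : β → ℕ)
    (Q : β → Prop) : Prop :=
  ∃ (f : α → β) (M : TM2ComputableAux Bool Bool) (c d : ℕ) (p : Polynomial ℕ),
    (∀ a, TmRuns M (bits a) (bits (f a)) (2 ^ (c * κ a) * p.eval (bits a).length)) ∧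
    (∀ a, P a ↔ Q (f a)) ∧ ∀ a, κ' (f a) ≤ d * (κ a + Nat.log 2 (bits a).length + 1)

/-- The class EW[1]: the parameterized problems (with polynomial-time computable parameter) that
are ept-reducible to the parameterized clique problem (instances `(G, k)`, parameter `k`). -/
def InEW1 {α : Type} [TEnc α] (κ : α → ℕ) (P : α → Prop) : Prop :=
  PolyParam κ ∧ EptReduces κ P (fun x : List (List Bool) × ℕ => x.2) HasClique

/-- Hardness for the class EW[1] under ept-reductions. -/
def EW1Hard {β : Type} [TEnc β] (κ' : β → ℕ) (Q : β → Prop) : Prop :=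
  ∀ (α : Type) [TEnc α] (κ : α → ℕ) (P : α → Prop), InEW1 κ P → EptReduces κ P κ' Q

/-! ### Formulas -/

/-- Quantifier-free first-order formulas over a relational vocabulary. The variables and the
relation symbols are natural numbers; `rel R [x₁, …, x_r]` is the atom `R x₁ … x_r`. -/
inductive QF : Type
  | eq (x y : ℕ)
  | rel (R : ℕ) (xs : List ℕ)
  | neg (φ : QF)
  | conj (φ ψ : QF)
  | disj (φ ψ : QF)

/-- The letters of a formula: an equality atom, a relational atom, or one of the connectives
`none = ¬`, `some false = ∧`, `some true = ∨`. -/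
abbrev Tok : Type := (ℕ × ℕ) ⊕ ((ℕ × List ℕ) ⊕ Option Bool)

/-- A quantifier-free formula as a word, in postfix (reverse Polish) notation. -/
def QF.word : QF → List Tok
  | eq x y => [Sum.inl (x, y)]
  | rel R xs => [Sum.inr (Sum.inl (R, xs))]
  | neg φ => φ.word ++ [Sum.inr (Sum.inr none)]
  | conj φ ψ => φ.word ++ (ψ.word ++ [Sum.inr (Sum.inr (some false))])
  | disj φ ψ => φ.word ++ (ψ.word ++ [Sum.inr (Sum.inr (some true))])

/-- Reading a letter with a stack of formulas. -/
def readTok : List QF → Tok → List QF
  | s, Sum.inl (x, y) => QF.eq x y :: s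
  | s, Sum.inr (Sum.inl (R, xs)) => QF.rel R xs :: s
  | φ :: s, Sum.inr (Sum.inr none) => QF.neg φ :: s
  | ψ :: φ :: s, Sum.inr (Sum.inr (some false)) => QF.conj φ ψ :: s
  | ψ :: φ :: s, Sum.inr (Sum.inr (some true)) => QF.disj φ ψ :: s
  | s, _ => s

theorem QF.foldl_readTok (φ : QF) : ∀ s : List QF, φ.word.foldl readTok s = φ :: s := by
  induction φ with
  | eq x y => intro s; rfl
  | rel R xs => intro s; rfl
  | neg φ ih => intro s; rw [word, List.foldl_append, ih]; rfl
  | conj φ ψ ih ih' => intro s; rw [word, List.foldl_append, ih, List.foldl_append, ih']; rfl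
  | disj φ ψ ih ih' => intro s; rw [word, List.foldl_append, ih, List.foldl_append, ih']; rfl

theorem QF.word_injective : Function.Injective QF.word := by
  intro φ ψ h
  have h1 := φ.foldl_readTok []
  rw [h, ψ.foldl_readTok] at h1
  simpa using h1.symm

/-- Quantifier-free formulas are coded as words (the numbers of the variables and of the relation
symbols in binary). -/
instance : TEnc QF := ⟨fun φ => toT φ.word, fun _ _ h => QF.word_injective (TEnc.inj h)⟩

/-- A `Σ₁`-sentence `∃ x₁ … ∃ x_m ψ`: the list of the quantified variables and the quantifier-free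
formula `ψ`. -/
abbrev Sentence : Type := List ℕ × QF

/-- The length `|φ|` of a sentence: the length of its code. -/
def Sentence.len (φ : Sentence) : ℕ := (bits φ).length

/-! ### Structures -/

/-- A finite relational structure: its universe is `{0, …, n - 1}`, where `n` is the length of the
first list; the `i`-th entry of the second list is the arity of the `i`-th relation symbol and the
list of the tuples in the `i`-th relation. -/
abbrev Struc : Type := List Unit × List (ℕ × List (List ℕ))

/-- The relations of a structure. -/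
def Struc.tuples (A : Struc) (R : ℕ) : List (List ℕ) := (A.2.getD R (0, [])).2

/-- The universe is not empty and every relation consists of tuples of elements of the universe
that have the length given by the arity of its symbol. -/
def Struc.Ok (A : Struc) : Prop :=
  A.1 ≠ [] ∧ ∀ R ∈ A.2, ∀ t ∈ R.2, t.length = R.1 ∧ ∀ a ∈ t, a < A.1.length

/-- All the variables of the formula are in the list `vs`, and its relation symbols belong to the
vocabulary of the structure `A` and are used with the right number of arguments. -/
def QF.Ok (A : Struc) (vs : List ℕ) : QF → Prop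
  | eq x y => x ∈ vs ∧ y ∈ vs
  | rel R xs => (∃ r, A.2[R]? = some r ∧ xs.length = r.1) ∧ ∀ x ∈ xs, x ∈ vs
  | neg φ => φ.Ok A vs
  | conj φ ψ => φ.Ok A vs ∧ ψ.Ok A vs
  | disj φ ψ => φ.Ok A vs ∧ ψ.Ok A vs

/-- `A` satisfies the formula under the assignment `v` of elements to the variables. -/
def QF.Sat (A : Struc) (v : ℕ → ℕ) : QF → Prop
  | eq x y => v x = v y
  | rel R xs => xs.map v ∈ A.tuples R
  | neg φ => ¬ φ.Sat A v
  | conj φ ψ => φ.Sat A v ∧ ψ.Sat A v
  | disj φ ψ => φ.Sat A v ∨ ψ.Sat A v

/-- `A ⊨ ∃ x₁ … ∃ x_m ψ`. -/
def Models (A : Struc) (φ : Sentence) : Prop :=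
  ∃ v : ℕ → ℕ, (∀ x ∈ φ.1, v x < A.1.length) ∧ φ.2.Sat A v

/-- The problem p-MC(`Σ₁`): instances are pairs of a finite relational structure `A` and a
`Σ₁`-sentence `φ` in the vocabulary of `A`; does `A` satisfy `φ`? -/
def ModelCheck (x : Struc × Sentence) : Prop :=
  (x.1.Ok ∧ x.2.2.Ok x.1 x.2.1) ∧ Models x.1 x.2

/-- The parameter of p-MC(`Σ₁`) is the length of the sentence. -/
def mcParam (x : Struc × Sentence) : ℕ := Sentence.len x.2

/-! ### Satisfiability of propositional formulas -/

/-- A propositional formula in conjunctive normal form: a list of clauses, each a list of literals;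
`(x, b)` is the literal that is true iff the variable `x` has the value `b`. -/
abbrev Cnf : Type := List (List (ℕ × Bool))

/-- Satisfiability. -/
def Satisfiable (F : Cnf) : Prop := ∃ τ : ℕ → Bool, ∀ C ∈ F, ∃ l ∈ C, τ l.1 = l.2

/-- At most three literals in every clause. -/
def IsThree (F : Cnf) : Prop := ∀ C ∈ F, C.length ≤ 3

/-- Some Turing machine decides the satisfiability of 3-CNF formulas `F` with `m` clauses in time
`2 ^ O(m / log m) * |F| ^ O(1)`. -/
def ThreeSatFast : Prop :=
  ∃ (d : Cnf → Bool) (M : TM2ComputableAux Bool Bool) (c : ℕ) (p : Polynomial ℕ),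
    (∀ F, IsThree F → (d F = true ↔ Satisfiable F)) ∧
    ∀ F, TmRuns M (bits F) (bits (d F))
      (2 ^ (c * (F.length / Nat.log 2 F.length + 1)) * p.eval (bits F).length)

end Pool.Agent.H683.MC
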