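import Pool.Agent.H683.MC.Arith

/-!
# An ept-reduction from clique to existential model checking gives a subexponential algorithm
for 3-SAT
-/

set_option autoImplicit false

namespace Pool.Agent.NPC.H683MC

open Turing Pool.Agent.H683.MC Pool.Agent.H633R2

/-- 3-CNF formulas. -/
abbrev Cnf3 : Type := {F : Cnf // IsThree F}

/-- The running time and the length of the output of the given reduction, on the instances of
clique that come from 3-CNF formulas. -/
theorem red_run {f : List (List Bool) × ℕ → Struc × Sentence} {M : TM2ComputableAux Bool Bool}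
    {c : ℕ} {p : Polynomial ℕ}
    (hM : ∀ a, TmRuns M (bits a) (bits (f a)) (2 ^ (c * a.2) * p.eval (bits a).length)) :
    ∃ (prog : Cmd ℕ) (C : ℕ), ∀ F : Cnf3,
      Runs prog (inp (bits (toClique F))) (inp (bits (f (toClique F)))) (2 ^ (C * gsz F.1)) ∧
      (bits (f (toClique F))).length ≤ 2 ^ (C * gsz F.1) := by
  obtain ⟨prog, c0, h⟩ := toCmd (f := f) M _ hM
  obtain ⟨Cp, hp⟩ := eval_two_pow p 16
  -- time
  have key : ∀ F : Cnf3, c0 * ((bits (toClique F)).length + 2 ^ (c * (toClique F).2) *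
      p.eval (bits (toClique F)).length + 1) ≤
      2 ^ ((c0 + (16 + (c + Cp) + 1 + 0 + 1)) * gsz F.1) := by
    intro F
    have hg : 1 ≤ gsz F.1 := gsz_pos F.1
    have h1 := sz_toClique_le F
    have h2 : p.eval (bits (toClique F)).length ≤ 2 ^ (Cp * gsz F.1) :=
      (eval_mono p h1).trans (hp _ hg)
    have h3 : 2 ^ (c * (toClique F).2) * p.eval (bits (toClique F)).length ≤
        2 ^ ((c + Cp) * gsz F.1) := by
      rw [← mul_two_pow]
      exact Nat.mul_le_mul_left _ h2
    have h4 := add_two_pow 16 (c + Cp) hg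
    have h5 := add_two_pow (16 + (c + Cp) + 1) 0 hg
    have h6 : (bits (toClique F)).length + 2 ^ (c * (toClique F).2) *
        p.eval (bits (toClique F)).length + 1 ≤ 2 ^ ((16 + (c + Cp) + 1 + 0 + 1) * gsz F.1) := by
      rw [Nat.zero_mul, pow_zero] at h5
      omega
    calc _ ≤ c0 * 2 ^ ((16 + (c + Cp) + 1 + 0 + 1) * gsz F.1) := Nat.mul_le_mul_left _ h6
      _ ≤ 2 ^ (c0 * gsz F.1) * 2 ^ ((16 + (c + Cp) + 1 + 0 + 1) * gsz F.1) :=
        Nat.mul_le_mul_right _ (le_two_pow_mul c0 hg)
      _ = _ := mul_two_pow _ _ _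
  refine ⟨prog, 16 + (c0 + (16 + (c + Cp) + 1 + 0 + 1)) + 1, fun F => ?_⟩
  have hg : 1 ≤ gsz F.1 := gsz_pos F.1
  have h1 := (h (toClique F)).mono (key F)
  have h2 := add_two_pow 16 (c0 + (16 + (c + Cp) + 1 + 0 + 1)) hg
  have h7 : 2 ^ ((c0 + (16 + (c + Cp) + 1 + 0 + 1)) * gsz F.1) ≤
      2 ^ ((16 + (c0 + (16 + (c + Cp) + 1 + 0 + 1)) + 1) * gsz F.1) :=
    Nat.pow_le_pow_right (by norm_num) (Nat.mul_le_mul_right _ (by omega))
  refine ⟨h1.mono h7, ?_⟩
  obtain ⟨t, ht, hr⟩ := h1
  have h3 := hr.length_le 0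
  simp only [inp, Function.update_self] at h3
  have h4 := sz_toClique_le F
  omega

/-- The exponent of exhaustive search is `O(m / log m)`. -/
theorem ex_bound {f : List (List Bool) × ℕ → Struc × Sentence} {C d : ℕ}
    (hlen : ∀ F : Cnf3, (bits (f (toClique F))).length ≤ 2 ^ (C * gsz F.1))
    (hd : ∀ a, mcParam (f a) ≤ d * (a.2 + Nat.log 2 (bits a).length + 1)) :
    ∃ C' : ℕ, ∀ F : Cnf3, ex (f (toClique F)) ≤ C' * wt F.1.length := by
  set K := 18 * d with hK
  refine ⟨4 * ((8 * K + 8) * (C + 1)), fun F => ?_⟩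
  set x := f (toClique F) with hx
  set m := F.1.length with hm
  set g := gsz F.1 with hg
  have hgm : g = Nat.sqrt m + 1 := gsz_eq F.1
  have hg1 : 1 ≤ g := gsz_pos F.1
  -- the length of the sentence
  have h1 : mcParam x ≤ K * g := by
    refine (hd (toClique F)).trans ?_
    have h2 : Nat.log 2 (bits (toClique F)).length ≤ 16 * g := by
      calc Nat.log 2 (bits (toClique F)).length ≤ Nat.log 2 (2 ^ (16 * g)) :=
            Nat.log_mono_right (sz_toClique_le F)
        _ = 16 * g := Nat.log_pow (by norm_num) _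
    have h3 : (toClique F).2 = g := rfl
    rw [h3]
    calc d * (g + Nat.log 2 (bits (toClique F)).length + 1) ≤ d * (18 * g) :=
          Nat.mul_le_mul_left _ (by omega)
      _ = K * g := by rw [hK]; ring
  -- the number of variables
  set v := (ded x.2.1).length with hv
  have h2 : v * Nat.size (v / 2) ≤ K * (Nat.sqrt m + 1) := by
    rw [← hgm]
    refine le_trans ?_ h1
    have h3 : (ded x.2.1).Nodup := by rw [ded_eq]; exact List.nodup_dedup _
    refine (nodup_sz _ h3).trans ((sz_ded_le _).trans ?_)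
    have h4 : mcParam x = sz x.2 := rfl
    have h5 : sz x.2 = sz x.2.1 + sz x.2.2 + 1 := sz_pair x.2.1 x.2.2
    omega
  obtain ⟨h3, h4⟩ := var_bound h2
  rw [← hgm] at h3 h4
  -- the size of the universe
  have h5 : x.1.1.length.bits.length ≤ (C + 1) * g := by
    rw [Nat.size_eq_bits_len]
    have h6 : x.1.1.length < 2 ^ (C * g) := by
      have h7 := length_lt_sz x.1.1
      have h8 : sz x.1 = sz x.1.1 + sz x.1.2 + 1 := sz_pair x.1.1 x.1.2
      have h9 : sz x = sz x.1 + sz x.2 + 1 := sz_pair x.1 x.2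
      have h10 : sz x ≤ 2 ^ (C * g) := hlen F
      omega
    have h7 : Nat.size x.1.1.length ≤ C * g := Nat.size_le.2 h6
    nlinarith
  have h6 : ex x ≤ v * ((C + 1) * g) := Nat.mul_le_mul_left _ h5
  rcases Nat.eq_zero_or_pos (Nat.log 2 m) with hL | hL
  · have h7 := log_zero_of hL
    have h8 : Nat.sqrt m ≤ m := Nat.sqrt_le_self m
    have h9 : g ≤ 2 := by omega
    have h10 : 1 ≤ wt m := one_le_wt _
    calc ex x ≤ v * ((C + 1) * g) := h6
      _ ≤ ((K + 1) * g) * ((C + 1) * g) := Nat.mul_le_mul_right _ h3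
      _ ≤ ((K + 1) * 2) * ((C + 1) * 2) :=
        Nat.mul_le_mul (Nat.mul_le_mul_left _ h9) (Nat.mul_le_mul_left _ h9)
      _ = 4 * ((K + 1) * (C + 1)) := by ring
      _ ≤ 4 * ((8 * K + 8) * (C + 1)) :=
        Nat.mul_le_mul_left _ (Nat.mul_le_mul_right _ (by omega))
      _ ≤ _ := Nat.le_mul_of_pos_right _ h10
  · refine div_bound hL ?_
    have hm0 : m ≠ 0 := by rintro h; rw [h] at hL; simp at hL
    have h7 : 1 ≤ Nat.sqrt m := Nat.le_sqrt.2 (by omega)
    have h8 : Nat.sqrt m * Nat.sqrt m ≤ m := Nat.sqrt_le m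
    have h9 : g * g ≤ 4 * m := by
      calc g * g ≤ (2 * Nat.sqrt m) * (2 * Nat.sqrt m) := Nat.mul_le_mul (by omega) (by omega)
        _ = 4 * (Nat.sqrt m * Nat.sqrt m) := by ring
        _ ≤ 4 * m := Nat.mul_le_mul_left _ h8
    calc ex x * Nat.log 2 m ≤ (v * ((C + 1) * g)) * Nat.log 2 m := Nat.mul_le_mul_right _ h6
      _ = (v * Nat.log 2 m) * ((C + 1) * g) := by ring
      _ ≤ ((8 * K + 8) * g) * ((C + 1) * g) := Nat.mul_le_mul_right _ h4
      _ = ((8 * K + 8) * (C + 1)) * (g * g) := by ring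
      _ ≤ ((8 * K + 8) * (C + 1)) * (4 * m) := Nat.mul_le_mul_left _ h9
      _ = _ := by ring

/-- The formula itself if it is a 3-CNF formula, otherwise the empty formula. -/
def trunc (F : Cnf) : Cnf := if (F.all fun C => decide (C.length ≤ 3)) = true then F else []

theorem trunc_isThree (F : Cnf) : IsThree (trunc F) := by
  unfold trunc
  split_ifs with h
  · intro C hC
    simpa using List.all_eq_true.1 h C hC
  · intro C hC
    simp at hC

theorem trunc_eq {F : Cnf} (h : IsThree F) : trunc F = F := by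
  unfold trunc
  rw [if_pos]
  rw [List.all_eq_true]
  intro C hC
  simpa using h C hC

/-- The same, with values in the type of 3-CNF formulas. -/
def trunc3 (F : Cnf) : Cnf3 := ⟨trunc F, trunc_isThree F⟩

theorem poly_trunc3 : Poly trunc3 := by
  have h : Poly trunc := by
    unfold trunc
    refine Poly.ite (p := fun F : Cnf => (F.all fun C => decide (C.length ≤ 3)) = true) ?_
      Poly.id (Poly.const [])
    refine Poly.decide_bool (Poly.all (l := fun F : Cnf => F)
      (p := fun _ C => decide (C.length ≤ 3)) Poly.id ?_)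
    exact Poly.decide_le (Poly.length (Poly.snd Poly.id)) (Poly.const 3)
  exact h

theorem sz_trunc3 (F : Cnf) : (bits (trunc3 F)).length ≤ (bits F).length := by
  rw [bits_length, bits_length]
  change sz (trunc F) ≤ sz F
  unfold trunc
  split_ifs
  · exact le_rfl
  · exact sz_pos F

theorem wt_trunc (F : Cnf) : wt (trunc F).length ≤ wt F.length := by
  unfold trunc
  split_ifs
  · exact le_rfl
  · unfold wt; simp

theorem eval_shift (P : Polynomial ℕ) (x : ℕ) {E : ℕ} (hE : 1 ≤ E) :
    P.eval (x + E) ≤ E ^ P.natDegree * (P.comp (Polynomial.X + 1)).eval x := by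
  rw [Polynomial.eval_comp]
  simp only [Polynomial.eval_add, Polynomial.eval_X, Polynomial.eval_one]
  refine (eval_mono P (?_ : x + E ≤ E * (x + 1))).trans (eval_mul_le P hE)
  nlinarith [Nat.mul_le_mul_right x hE]

/-- **Main theorem.** -/
theorem threeSatFast_of_ept
    (h : EptReduces (fun x : List (List Bool) × ℕ => x.2) HasClique mcParam ModelCheck) :
    ThreeSatFast := by
  obtain ⟨f, M, c, d, p, hM, hf, hd⟩ := h
  obtain ⟨c2, C2, h2⟩ := red_run hM
  obtain ⟨C3, h3⟩ := ex_bound (fun F => (h2 F).2) hd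
  obtain ⟨c1, P1, h1⟩ := toClique_run
  obtain ⟨c4, P4, h4⟩ := mcB_run
  obtain ⟨c0, P0, h0⟩ := poly_trunc3
  obtain ⟨C5, hC5⟩ := eval_two_pow P4 (4 * C2 + (2 * C3 + 4) + 1)
  -- the whole program
  set D : Cnf → Bool := fun F => mcB (f (toClique (trunc3 F))) with hD
  have hrun : ∀ F : Cnf, Runs (Cmd.seq c0 (Cmd.seq c1 (Cmd.seq c2 c4))) (inp (bits F))
      (inp (bits (D F)))
      (2 ^ ((40 * P1.natDegree + 4 * C2 + C5 + 0) * wt F.length) *
        (P0 + P1.comp (Polynomial.X + 1) + 2).eval (bits F).length) := by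
    intro F
    have hw : 1 ≤ wt F.length := one_le_wt _
    have hg : gsz (trunc3 F).1 ≤ 4 * wt F.length := by
      rw [gsz_eq]
      exact (sqrt_le_wt _).trans (Nat.mul_le_mul_left _ (wt_trunc F))
    have e0 := h0 F
    have e1 := h1 (trunc3 F)
    have e2 := h2 (trunc3 F)
    have e4 := h4 (f (toClique (trunc3 F)))
    refine (e0.seq (e1.seq (e2.1.seq e4))).mono ?_
    set w := wt F.length with hwdef
    set X := (bits F).length with hX
    -- first reduction
    have b1 : P1.eval ((bits (trunc3 F)).length + 2 ^ (2 * (3 * gsz (trunc3 F).1) + 4)) ≤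
        2 ^ ((40 * P1.natDegree) * w) * (P1.comp (Polynomial.X + 1)).eval X := by
      refine (eval_shift P1 _ Nat.one_le_two_pow).trans ?_
      rw [← pow_mul]
      refine Nat.mul_le_mul (Nat.pow_le_pow_right (by norm_num) ?_) (eval_mono _ (sz_trunc3 F))
      calc (2 * (3 * gsz (trunc3 F).1) + 4) * P1.natDegree ≤ (40 * w) * P1.natDegree :=
            Nat.mul_le_mul_right _ (by omega)
        _ = _ := by ring
    -- second reduction
    have b2 : 2 ^ (C2 * gsz (trunc3 F).1) ≤ 2 ^ ((4 * C2) * w) := by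
      refine Nat.pow_le_pow_right (by norm_num) ?_
      calc C2 * gsz (trunc3 F).1 ≤ C2 * (4 * w) := Nat.mul_le_mul_left _ hg
        _ = _ := by ring
    -- exhaustive search
    have b4 : P4.eval ((bits (f (toClique (trunc3 F)))).length +
        2 ^ (2 * ex (f (toClique (trunc3 F))) + 4)) ≤ 2 ^ (C5 * w) := by
      refine le_trans (eval_mono P4 ?_) (hC5 w hw)
      refine le_trans ?_ (add_two_pow _ _ hw)
      refine Nat.add_le_add (e2.2.trans b2) (Nat.pow_le_pow_right (by norm_num) ?_)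
      have h5 := (h3 (trunc3 F)).trans (Nat.mul_le_mul_left C3 (wt_trunc F))
      rw [← hwdef] at h5
      calc 2 * ex (f (toClique (trunc3 F))) + 4 ≤ 2 * (C3 * w) + 4 * w := by omega
        _ = _ := by ring
    simp only [Polynomial.eval_add, Nat.add_zero]
    have e5 : Polynomial.eval X (2 : Polynomial ℕ) = 2 := by
      simp
    rw [e5]
    set u := 40 * P1.natDegree with hu
    set T := 2 ^ ((u + 4 * C2 + C5) * w) with hT
    have hT1 : 1 ≤ T := Nat.one_le_two_pow
    have t1 : 2 ^ (u * w) ≤ T := Nat.pow_le_pow_right (by norm_num)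
      (Nat.mul_le_mul_right _ (by omega))
    have t2 : 2 ^ (4 * C2 * w) ≤ T := Nat.pow_le_pow_right (by norm_num)
      (Nat.mul_le_mul_right _ (by omega))
    have t3 : 2 ^ (C5 * w) ≤ T := Nat.pow_le_pow_right (by norm_num)
      (Nat.mul_le_mul_right _ (by omega))
    have s0 : P0.eval X ≤ T * P0.eval X := Nat.le_mul_of_pos_left _ hT1
    have s1 := b1.trans (Nat.mul_le_mul_right _ t1)
    calc _ ≤ T * P0.eval X + (T * (P1.comp (Polynomial.X + 1)).eval X + (T + T)) :=
          Nat.add_le_add s0 (Nat.add_le_add s1 (Nat.add_le_add (b2.trans t2) (b4.trans t3)))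
      _ = _ := by ring
  obtain ⟨M', hM'⟩ := toTm (f := D) _ _ hrun
  refine ⟨D, M', 40 * P1.natDegree + 4 * C2 + C5 + 0, P0 + P1.comp (Polynomial.X + 1) + 2 + 1, fun F hF => ?_, fun F => ?_⟩
  · rw [hD]
    simp only
    rw [mcB_iff, ← hf]
    have e : trunc3 F = ⟨F, hF⟩ := Subtype.ext (trunc_eq hF)
    rw [e]
    exact clique_iff F
  · obtain ⟨h5⟩ := hM' F
    refine ⟨outputs_conv rfl rfl ?_ h5⟩
    have e : (P0 + P1.comp (Polynomial.X + 1) + 2 + 1).eval (bits F).length =
        (P0 + P1.comp (Polynomial.X + 1) + 2).eval (bits F).length + 1 := by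
      rw [Polynomial.eval_add (q := 1), Polynomial.eval_one]
    rw [e, Nat.mul_add, Nat.mul_one]
    exact Nat.add_le_add_left Nat.one_le_two_pow _

/-- The clique problem is in EW[1]. -/
theorem clique_inEW1 : InEW1 (fun x : List (List Bool) × ℕ => x.2) HasClique := by
  refine ⟨?_, fun a => a, ?_⟩
  · obtain ⟨c, p, h⟩ : Poly (fun x : List (List Bool) × ℕ => x.2) := Poly.snd Poly.id
    obtain ⟨M, hM⟩ := toTm (ea := bits) (eb := bits) (f := fun x : List (List Bool) × ℕ => x.2)
      c (fun a => p.eval (bits a).length) h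
    refine ⟨M, p + 1, fun a => ?_⟩
    have := hM a
    rwa [Polynomial.eval_add, Polynomial.eval_one]
  · obtain ⟨c, p, h⟩ : Poly (fun x : List (List Bool) × ℕ => x) := Poly.id
    obtain ⟨M, hM⟩ := toTm (ea := bits) (eb := bits) (f := fun x : List (List Bool) × ℕ => x)
      c (fun a => p.eval (bits a).length) h
    refine ⟨M, 0, 1, p + 1, fun a => ?_, fun a => Iff.rfl, fun a => ?_⟩
    · have := hM a
      rwa [Nat.zero_mul, pow_zero, Nat.one_mul, Polynomial.eval_add, Polynomial.eval_one]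
    · change a.2 ≤ 1 * (a.2 + Nat.log 2 (bits a).length + 1)
      omega

theorem threeSatFast_of_hard (h : EW1Hard mcParam ModelCheck) : ThreeSatFast :=
  threeSatFast_of_ept (h _ _ _ clique_inEW1)

end Pool.Agent.NPC.H683MC
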