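import Pool.Agent.H683.MC.Defs
import Pool.Graph.R_seed8.H628R2.FPTW
import Pool.Graph.R_seed8.H633R2.Fpt

/-!
# From 3-SAT with `m` clauses to cliques of size `≈ √m` in graphs of size `2 ^ O(√m)`
-/

set_option autoImplicit false

namespace Pool.Agent.H683.MC

open Turing Pool.Agent.NPC Pool.Agent.H633R2

/-- All assignments to the variables in a list. -/
def opts (l : List ℕ) : List (List (ℕ × Bool)) :=
  l.foldr (fun x acc => acc.flatMap fun L => [(x, false) :: L, (x, true) :: L]) [[]]

@[simp] theorem opts_nil : opts [] = [[]] := rfl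

theorem opts_cons (x : ℕ) (l : List ℕ) :
    opts (x :: l) = (opts l).flatMap fun L => [(x, false) :: L, (x, true) :: L] := rfl

theorem opts_length (l : List ℕ) : (opts l).length = 2 ^ l.length := by
  induction l with
  | nil => rfl
  | cons x l ih =>
    rw [opts_cons, List.length_flatMap]
    simp only [List.length_cons, List.length_nil, List.map_const', List.sum_replicate, ih,
      smul_eq_mul, pow_succ]

theorem map_mem_opts (τ : ℕ → Bool) (l : List ℕ) : (l.map fun x => (x, τ x)) ∈ opts l := by
  induction l with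
  | nil => simp
  | cons x l ih =>
    rw [opts_cons, List.mem_flatMap]
    refine ⟨_, ih, ?_⟩
    cases h : τ x <;> simp [h]

theorem sz_of_mem_opts (l : List ℕ) : ∀ L ∈ opts l, sz L ≤ 5 * sz l := by
  induction l with
  | nil => intro L hL; simp at hL; subst hL; simp
  | cons x l ih =>
    intro L hL
    rw [opts_cons, List.mem_flatMap] at hL
    obtain ⟨L', hL', hL⟩ := hL
    have h1 := ih L' hL'
    simp only [List.mem_cons, List.not_mem_nil, or_false] at hL
    have h2 := sz_pos x
    rcases hL with rfl | rfl <;> simp <;> omega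

/-- The number of groups (and of clauses in a group). -/
def gsz (F : Cnf) : ℕ :=
  ((List.range (F.length + 1)).filter fun i => decide (i * i ≤ F.length)).length

theorem gsz_eq (F : Cnf) : gsz F = Nat.sqrt F.length + 1 := by
  unfold gsz
  have h1 : (List.range (F.length + 1)).filter (fun i => decide (i * i ≤ F.length)) =
      List.range (Nat.sqrt F.length + 1) := by
    have h2 : Nat.sqrt F.length ≤ F.length := Nat.sqrt_le_self _
    obtain ⟨d, hd⟩ := Nat.exists_eq_add_of_le (Nat.add_le_add_right h2 1)
    rw [hd, List.range_add, List.filter_append]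
    have h3 : (List.range (Nat.sqrt F.length + 1)).filter (fun i => decide (i * i ≤ F.length)) =
        List.range (Nat.sqrt F.length + 1) := by
      rw [List.filter_eq_self]
      intro i hi
      rw [List.mem_range] at hi
      rw [decide_eq_true_eq]
      calc i * i ≤ Nat.sqrt F.length * Nat.sqrt F.length :=
            Nat.mul_le_mul (by omega) (by omega)
        _ ≤ F.length := Nat.sqrt_le _
    have h4 : ((List.range d).map (fun x => Nat.sqrt F.length + 1 + x)).filter
        (fun i => decide (i * i ≤ F.length)) = [] := by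
      rw [List.filter_eq_nil_iff]
      intro i hi
      rw [List.mem_map] at hi
      obtain ⟨j, _, rfl⟩ := hi
      rw [decide_eq_true_eq]
      intro h
      have h6 : Nat.sqrt F.length + 1 + j ≤ Nat.sqrt F.length := by
        rw [Nat.le_sqrt]; exact h
      omega
    rw [h3, h4, List.append_nil]
  rw [h1, List.length_range]

theorem gsz_pos (F : Cnf) : 0 < gsz F := by rw [gsz_eq]; omega

theorem lt_gsz_mul (F : Cnf) : F.length < gsz F * gsz F := by
  rw [gsz_eq]; exact Nat.lt_succ_sqrt _

/-- The `i`-th group of clauses. -/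
def grp (F : Cnf) (i : ℕ) : Cnf :=
  (F.zipIdx.filter fun p => decide (p.2 / gsz F = i)).map Prod.fst

theorem mem_grp {F : Cnf} {C : List (ℕ × Bool)} (h : C ∈ F) : ∃ i < gsz F, C ∈ grp F i := by
  obtain ⟨j, hj, rfl⟩ := List.mem_iff_getElem.1 h
  refine ⟨j / gsz F, ?_, ?_⟩
  · rw [Nat.div_lt_iff_lt_mul (gsz_pos F)]
    exact hj.trans (lt_gsz_mul F)
  · unfold grp
    rw [List.mem_map]
    refine ⟨(F[j], j), ?_, rfl⟩
    rw [List.mem_filter]
    refine ⟨?_, by simp⟩
    rw [List.mk_mem_zipIdx_iff_getElem?]
    exact List.getElem?_eq_getElem hj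

theorem mem_of_mem_grp {F : Cnf} {C : List (ℕ × Bool)} {i : ℕ} (h : C ∈ grp F i) : C ∈ F := by
  unfold grp at h
  rw [List.mem_map] at h
  obtain ⟨⟨C', j⟩, h1, rfl⟩ := h
  rw [List.mem_filter] at h1
  have := h1.1
  rw [List.mk_mem_zipIdx_iff_getElem?] at this
  exact List.mem_of_getElem? this

theorem grp_length_le (F : Cnf) (i : ℕ) : (grp F i).length ≤ gsz F := by
  unfold grp
  rw [List.length_map]
  have h1 : ((F.zipIdx.filter fun p => decide (p.2 / gsz F = i)).map Prod.snd).Nodup := by
    have h2 : (F.zipIdx.map Prod.snd).Nodup := by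
      rw [List.zipIdx_map_snd]
      exact List.nodup_range'
    exact h2.sublist (List.Sublist.map _ List.filter_sublist)
  have h3 : ((F.zipIdx.filter fun p => decide (p.2 / gsz F = i)).map Prod.snd).toFinset ⊆
      Finset.Ico (i * gsz F) (i * gsz F + gsz F) := by
    intro j hj
    rw [List.mem_toFinset, List.mem_map] at hj
    obtain ⟨⟨C, j'⟩, h4, rfl⟩ := hj
    rw [List.mem_filter, decide_eq_true_eq] at h4
    have h5 := h4.2
    simp only at h5
    rw [Finset.mem_Ico]
    have h6 := Nat.div_add_mod j' (gsz F)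
    have h7 := Nat.mod_lt j' (gsz_pos F)
    rw [h5, mul_comm] at h6
    simp only
    omega
  have h8 := Finset.card_le_card h3
  rw [List.toFinset_card_of_nodup h1, List.length_map, Nat.card_Ico] at h8
  omega

/-- The variables occurring in the `i`-th group. -/
def occ (F : Cnf) (i : ℕ) : List ℕ := (grp F i).flatten.map Prod.fst

theorem occ_length_le {F : Cnf} (hF : IsThree F) (i : ℕ) : (occ F i).length ≤ 3 * gsz F := by
  unfold occ
  rw [List.length_map, List.length_flatten]
  have h1 : ∀ G : Cnf, (∀ C ∈ G, C.length ≤ 3) → (G.map List.length).sum ≤ 3 * G.length := by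
    intro G
    induction G with
    | nil => simp
    | cons C G ih =>
      intro h
      have h2 := ih fun C hC => h C (List.mem_cons_of_mem _ hC)
      have h3 := h C (by simp)
      simp
      omega
  have h2 := h1 (grp F i) fun C hC => hF C (mem_of_mem_grp hC)
  have h3 := grp_length_le F i
  omega

/-- Two partial assignments are consistent. -/
def cons2 (L L' : List (ℕ × Bool)) : Bool :=
  L.all fun p => L'.all fun q => !(decide (p.1 = q.1) && !(decide (p.2 = q.2)))

theorem cons2_iff {L L' : List (ℕ × Bool)} :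
    cons2 L L' = true ↔ ∀ x b b', (x, b) ∈ L → (x, b') ∈ L' → b = b' := by
  unfold cons2
  rw [List.all_eq_true]
  constructor
  · intro h x b b' h1 h2
    have h3 := List.all_eq_true.1 (h _ h1) _ h2
    simpa using h3
  · rintro h ⟨x, b⟩ h1
    rw [List.all_eq_true]
    rintro ⟨y, b'⟩ h2
    by_cases hxy : x = y
    · subst hxy
      simp [h x b b' h1 h2]
    · simp [hxy]

/-- The assignment is consistent and satisfies the group. -/
def goodV (F : Cnf) (u : ℕ × List (ℕ × Bool)) : Bool :=
  cons2 u.2 u.2 && (grp F u.1).all fun C => C.any fun l => decide (l ∈ u.2)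

/-- The vertices. -/
def verts (F : Cnf) : List (ℕ × List (ℕ × Bool)) :=
  ((List.range (gsz F)).flatMap fun i => (opts (occ F i)).map fun L => (i, L)).filter (goodV F)

/-- Adjacency. -/
def adjV (u v : ℕ × List (ℕ × Bool)) : Bool := !(decide (u.1 = v.1)) && cons2 u.2 v.2

/-- The adjacency matrix. -/
def mat (F : Cnf) : List (List Bool) := (verts F).map fun u => (verts F).map fun v => adjV u v

theorem mat_length (F : Cnf) : (mat F).length = (verts F).length := List.length_map _

theorem entry_mat (F : Cnf) (i j : ℕ) (hi : i < (verts F).length) (hj : j < (verts F).length) :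
    entry (mat F) i j = adjV (verts F)[i] (verts F)[j] := by
  unfold entry mat
  have h1 : i < ((verts F).map fun u => (verts F).map fun v => adjV u v).length := by
    rw [List.length_map]; exact hi
  rw [List.getD_eq_getElem _ _ h1, List.getElem_map]
  have h2 : j < ((verts F).map fun v => adjV (verts F)[i] v).length := by
    rw [List.length_map]; exact hj
  rw [List.getD_eq_getElem _ _ h2, List.getElem_map]

theorem adjV_symm (u v : ℕ × List (ℕ × Bool)) (h : adjV u v = true) : adjV v u = true := by
  unfold adjV at *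
  rw [Bool.and_eq_true] at *
  refine ⟨?_, ?_⟩
  · have h1 := h.1
    rw [Bool.not_eq_true', decide_eq_false_iff_not] at h1 ⊢
    exact fun h2 => h1 h2.symm
  rw [cons2_iff]
  intro x b b' h1 h2
  exact (cons2_iff.1 h.2 x b' b h2 h1).symm

theorem mem_verts {F : Cnf} {u : ℕ × List (ℕ × Bool)} :
    u ∈ verts F ↔ (u.1 < gsz F ∧ u.2 ∈ opts (occ F u.1)) ∧ goodV F u = true := by
  unfold verts
  rw [List.mem_filter]
  refine and_congr_left fun _ => ?_
  rw [List.mem_flatMap]
  constructor
  · rintro ⟨i, hi, h⟩
    rw [List.mem_map] at h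
    obtain ⟨L, hL, rfl⟩ := h
    exact ⟨List.mem_range.1 hi, hL⟩
  · rintro ⟨h1, h2⟩
    exact ⟨u.1, List.mem_range.2 h1, List.mem_map.2 ⟨u.2, h2, rfl⟩⟩

theorem sat_of_clique {F : Cnf} (h : HasClique (mat F, gsz F)) : Satisfiable F := by
  obtain ⟨S, hS⟩ := h
  change (graphOf (mat F)).IsNClique (gsz F) S at hS
  have hlen : ∀ s : Fin (mat F).length, (s : ℕ) < (verts F).length := fun s => by
    rw [← mat_length]; exact s.2
  set U : Fin (mat F).length → ℕ × List (ℕ × Bool) := fun s => (verts F)[(s : ℕ)]'(hlen s) with hU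
  have hmem : ∀ s, U s ∈ verts F := fun s => List.getElem_mem _
  have hadj : ∀ s ∈ S, ∀ t ∈ S, s ≠ t → adjV (U s) (U t) = true := by
    intro s hs t ht hst
    have h1 : (graphOf (mat F)).Adj s t := hS.isClique hs ht hst
    rcases h1.2 with h2 | h2
    · rwa [entry_mat F _ _ (hlen s) (hlen t)] at h2
    · rw [entry_mat F _ _ (hlen t) (hlen s)] at h2
      exact adjV_symm _ _ h2
  have hcons : ∀ s ∈ S, ∀ t ∈ S, ∀ x b b', (x, b) ∈ (U s).2 → (x, b') ∈ (U t).2 → b = b' := by
    intro s hs t ht x b b' h1 h2
    by_cases hst : s = t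
    · subst hst
      have h3 := (mem_verts.1 (hmem s)).2
      unfold goodV at h3
      rw [Bool.and_eq_true] at h3
      exact cons2_iff.1 h3.1 x b b' h1 h2
    · have h3 := hadj s hs t ht hst
      unfold adjV at h3
      rw [Bool.and_eq_true] at h3
      exact cons2_iff.1 h3.2 x b b' h1 h2
  have hinj : Set.InjOn (fun s => (U s).1) (S : Set (Fin (mat F).length)) := by
    intro s hs t ht hst
    by_contra hne
    have h3 := hadj s hs t ht hne
    unfold adjV at h3
    rw [Bool.and_eq_true] at h3
    simp at h3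
    exact h3.1 hst
  have himg : S.image (fun s => (U s).1) = Finset.range (gsz F) := by
    apply Finset.eq_of_subset_of_card_le
    · intro i hi
      rw [Finset.mem_image] at hi
      obtain ⟨s, _, rfl⟩ := hi
      exact Finset.mem_range.2 (mem_verts.1 (hmem s)).1.1
    · rw [Finset.card_image_of_injOn hinj, Finset.card_range, hS.card_eq]
  classical
  refine ⟨fun x => decide (∃ s ∈ S, (x, true) ∈ (U s).2), fun C hC => ?_⟩
  obtain ⟨i, hi, hCi⟩ := mem_grp hC
  rw [← Finset.mem_range, ← himg, Finset.mem_image] at hi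
  obtain ⟨s, hs, rfl⟩ := hi
  have h3 := (mem_verts.1 (hmem s)).2
  unfold goodV at h3
  rw [Bool.and_eq_true, List.all_eq_true] at h3
  have h4 := h3.2 C hCi
  rw [List.any_eq_true] at h4
  obtain ⟨⟨x, b⟩, hl, hl'⟩ := h4
  rw [decide_eq_true_eq] at hl'
  refine ⟨(x, b), hl, ?_⟩
  simp only
  cases b with
  | true => exact decide_eq_true ⟨s, hs, hl'⟩
  | false =>
    apply decide_eq_false
    rintro ⟨t, ht, h5⟩
    exact absurd (hcons s hs t ht x false true hl' h5) (by decide)

theorem clique_of_sat {F : Cnf} (h : Satisfiable F) : HasClique (mat F, gsz F) := by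
  obtain ⟨τ, hτ⟩ := h
  set u : ℕ → ℕ × List (ℕ × Bool) := fun i => (i, (occ F i).map fun x => (x, τ x)) with hu
  have hval : ∀ i x b, (x, b) ∈ (u i).2 → b = τ x := by
    intro i x b h
    simp only [hu, List.mem_map, Prod.mk.injEq] at h
    obtain ⟨y, _, rfl, rfl⟩ := h
    rfl
  have hc : ∀ i j, cons2 (u i).2 (u j).2 = true := by
    intro i j
    rw [cons2_iff]
    intro x b b' h1 h2
    rw [hval i x b h1, hval j x b' h2]
  have hgood : ∀ i, goodV F (u i) = true := by
    intro i
    unfold goodV
    rw [Bool.and_eq_true, List.all_eq_true]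
    refine ⟨hc i i, fun C hC => ?_⟩
    obtain ⟨⟨x, b⟩, hl, hl'⟩ := hτ C (mem_of_mem_grp hC)
    rw [List.any_eq_true]
    refine ⟨(x, b), hl, ?_⟩
    rw [decide_eq_true_eq]
    simp only [hu, List.mem_map, Prod.mk.injEq]
    refine ⟨x, ?_, rfl, hl'⟩
    unfold occ
    rw [List.mem_map]
    exact ⟨(x, b), List.mem_flatten.2 ⟨C, hC, hl⟩, rfl⟩
  have hmem : ∀ i : Fin (gsz F), u i ∈ verts F := fun i =>
    mem_verts.2 ⟨⟨i.2, map_mem_opts τ _⟩, hgood i⟩
  have hex : ∀ i : Fin (gsz F), ∃ s : Fin (mat F).length,
      ∃ h : (s : ℕ) < (verts F).length, (verts F)[(s : ℕ)] = u i := by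
    intro i
    obtain ⟨s, hs, hs'⟩ := List.mem_iff_getElem.1 (hmem i)
    exact ⟨⟨s, by rw [mat_length]; exact hs⟩, hs, hs'⟩
  choose f hf hf' using hex
  have hinj : Function.Injective f := by
    intro i j hij
    have h1 := hf' i
    have h2 := hf' j
    simp only [hij] at h1
    rw [h2] at h1
    have h3 : (u j).1 = (u i).1 := by rw [h1]
    exact Fin.ext h3.symm
  refine ⟨Finset.univ.image f, ?_⟩
  constructor
  · intro s hs t ht hst
    simp only [Finset.coe_image, Set.mem_image, Finset.mem_coe, Finset.mem_univ, true_and] at hs ht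
    obtain ⟨i, rfl⟩ := hs
    obtain ⟨j, rfl⟩ := ht
    refine ⟨hst, Or.inl ?_⟩
    rw [entry_mat F _ _ (hf i) (hf j), hf' i, hf' j]
    unfold adjV
    rw [Bool.and_eq_true]
    refine ⟨?_, hc i j⟩
    have hij : (i : ℕ) ≠ j := fun h => hst (by rw [Fin.ext h])
    simpa [hu] using hij
  · rw [Finset.card_image_of_injective _ hinj, Finset.card_univ, Fintype.card_fin]

theorem clique_iff (F : Cnf) : HasClique (mat F, gsz F) ↔ Satisfiable F :=
  ⟨sat_of_clique, clique_of_sat⟩

end Pool.Agent.H683.MC
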