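import Pool.Agent.H683.MC.SatClique

/-!
# The reduction from 3-SAT to clique: running time and size of the output
-/

set_option autoImplicit false

namespace Pool.Agent.NPC.H683MC

open Turing Pool.Agent.H683.MC Pool.Agent.H633R2

theorem uPoly_gsz : UPoly gsz := by
  refine UPoly.length (l := fun F : Cnf =>
    (List.range (F.length + 1)).filter fun i => decide (i * i ≤ F.length)) ?_
  refine Poly.filter (l := fun F : Cnf => List.range (F.length + 1))
    (p := fun F i => decide (i * i ≤ F.length)) ?_ ?_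
  · exact UPoly.range (UPoly.add (UPoly.length Poly.id) (UPoly.const 1))
  · exact Poly.decide_le (Poly.mul (Poly.snd Poly.id) (Poly.snd Poly.id))
      (Poly.length (Poly.fst Poly.id))

theorem poly_gsz : Poly gsz := uPoly_gsz.toPoly

theorem poly_grp : Poly (fun x : Cnf × ℕ => grp x.1 x.2) := by
  unfold grp
  refine Poly.map (F := fun _ p => p.1) (Poly.filter (l := fun x : Cnf × ℕ => x.1.zipIdx)
    (p := fun x p => decide (p.2 / gsz x.1 = x.2)) (Poly.zipIdx (Poly.fst Poly.id)) ?_)
    (Poly.fst (Poly.snd Poly.id))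
  exact Poly.decide_eq (Poly.div (Poly.snd (Poly.snd Poly.id))
    (poly_gsz.comp (Poly.fst (Poly.fst Poly.id)))) (Poly.snd (Poly.fst Poly.id))

theorem poly_occ : Poly (fun x : Cnf × ℕ => occ x.1 x.2) := by
  unfold occ
  exact Poly.map (F := fun _ p => p.1) (Poly.flatten poly_grp) (Poly.fst (Poly.snd Poly.id))

theorem poly_cons2 : Poly (fun x : List (ℕ × Bool) × List (ℕ × Bool) => cons2 x.1 x.2) := by
  unfold cons2
  refine Poly.all (l := fun x : List (ℕ × Bool) × List (ℕ × Bool) => x.1)
    (p := fun x p => x.2.all fun q => !(decide (p.1 = q.1) && !(decide (p.2 = q.2))))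
    (Poly.fst Poly.id) ?_
  refine Poly.all (l := fun x : (List (ℕ × Bool) × List (ℕ × Bool)) × (ℕ × Bool) => x.1.2)
    (p := fun x q => !(decide (x.2.1 = q.1) && !(decide (x.2.2 = q.2))))
    (Poly.snd (Poly.fst Poly.id)) ?_
  refine Poly.not (Poly.and (Poly.decide_eq ?_ ?_) (Poly.not (Poly.decide_eq ?_ ?_)))
  · exact Poly.fst (Poly.snd (Poly.fst Poly.id))
  · exact Poly.fst (Poly.snd Poly.id)
  · exact Poly.snd (Poly.snd (Poly.fst Poly.id))
  · exact Poly.snd (Poly.snd Poly.id)

theorem poly_goodV : Poly (fun x : Cnf × (ℕ × List (ℕ × Bool)) => goodV x.1 x.2) := by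
  unfold goodV
  have h2 : Poly (fun x : Cnf × (ℕ × List (ℕ × Bool)) => cons2 x.2.2 x.2.2) :=
    Poly.comp (g := fun x : List (ℕ × Bool) × List (ℕ × Bool) => cons2 x.1 x.2)
      (f := fun x : Cnf × (ℕ × List (ℕ × Bool)) => (x.2.2, x.2.2)) poly_cons2
      (Poly.pair (Poly.snd (Poly.snd Poly.id)) (Poly.snd (Poly.snd Poly.id)))
  have h3 : Poly (fun x : Cnf × (ℕ × List (ℕ × Bool)) => grp x.1 x.2.1) :=
    Poly.comp (g := fun x : Cnf × ℕ => grp x.1 x.2)
      (f := fun x : Cnf × (ℕ × List (ℕ × Bool)) => (x.1, x.2.1)) poly_grp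
      (Poly.pair (Poly.fst Poly.id) (Poly.fst (Poly.snd Poly.id)))
  refine Poly.and h2 ?_
  · refine Poly.all (l := fun x : Cnf × (ℕ × List (ℕ × Bool)) => grp x.1 x.2.1)
      (p := fun x C => C.any fun l => decide (l ∈ x.2.2)) h3 ?_
    refine Poly.any (l := fun x : (Cnf × (ℕ × List (ℕ × Bool))) × List (ℕ × Bool) => x.2)
      (p := fun x l => decide (l ∈ x.1.2.2)) (Poly.snd Poly.id) ?_
    have h1 : Poly (fun x : ((Cnf × (ℕ × List (ℕ × Bool))) × List (ℕ × Bool)) × (ℕ × Bool) =>
        x.1.1.2.2) := Poly.snd (Poly.snd (Poly.fst (Poly.fst Poly.id)))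
    exact (Poly.decide_mem (f := fun x : ((Cnf × (ℕ × List (ℕ × Bool))) × List (ℕ × Bool)) ×
      (ℕ × Bool) => x.2) (l := fun x => x.1.1.2.2) (Poly.snd Poly.id) h1).congr
        fun a => decide_eq_decide.2 Iff.rfl

theorem poly_adjV :
    Poly (fun x : (ℕ × List (ℕ × Bool)) × (ℕ × List (ℕ × Bool)) => adjV x.1 x.2) := by
  unfold adjV
  refine Poly.and (Poly.not (Poly.decide_eq (Poly.fst (Poly.fst Poly.id))
    (Poly.fst (Poly.snd Poly.id)))) ?_
  exact Poly.comp (g := fun x : List (ℕ × Bool) × List (ℕ × Bool) => cons2 x.1 x.2)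
    (f := fun x : (ℕ × List (ℕ × Bool)) × (ℕ × List (ℕ × Bool)) => (x.1.2, x.2.2)) poly_cons2
    (Poly.pair (Poly.snd (Poly.fst Poly.id)) (Poly.snd (Poly.snd Poly.id)))

theorem sz_opts_le (l : List ℕ) : sz (opts l) ≤ 2 ^ l.length * (5 * sz l + 1) + 1 := by
  have h := sz_le_length_mul (opts l) (5 * sz l) (sz_of_mem_opts l)
  rwa [opts_length] at h

/-- Enumerating all assignments is polynomial if there is enough padding. -/
theorem poly_opts {α : Type} [TEnc α] {l : α → List ℕ} {w : α → List Unit} (hl : Poly l)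
    (hw : Poly w) (h : ∀ a, 2 ^ (l a).length ≤ (w a).length) : Poly (fun a => opts (l a)) := by
  obtain ⟨r, hr⟩ := hl.sz_le
  obtain ⟨r', hr'⟩ := hw.sz_le
  refine Poly.foldr (l := l) (s := fun _ => [[]])
    (F := fun _ x acc => acc.flatMap fun L => [(x, false) :: L, (x, true) :: L]) hl (Poly.const _)
    ?_ (r' * (Polynomial.C 5 * r + 1) + 1) ?_
  · refine Poly.flatMap (l := fun p : α × ℕ × List (List (ℕ × Bool)) => p.2.2)
      (F := fun p L => [(p.2.1, false) :: L, (p.2.1, true) :: L]) (Poly.snd (Poly.snd Poly.id)) ?_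
    refine Poly.cons (Poly.cons (Poly.pair ?_ (Poly.const false)) (Poly.snd Poly.id))
      (Poly.cons (Poly.cons (Poly.pair ?_ (Poly.const true)) (Poly.snd Poly.id)) (Poly.const []))
    · exact Poly.fst (Poly.snd (Poly.fst Poly.id))
    · exact Poly.fst (Poly.snd (Poly.fst Poly.id))
  · intro a k hk
    change sz (opts ((l a).drop k)) ≤ _
    refine (sz_opts_le _).trans ?_
    simp only [Polynomial.eval_add, Polynomial.eval_mul, Polynomial.eval_C, Polynomial.eval_one]
    have h1 : 2 ^ ((l a).drop k).length ≤ 2 ^ (l a).length :=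
      Nat.pow_le_pow_right (by norm_num) (by simp)
    have h2 := Poly.sz_drop_le (l a) k
    have h3 := hr a
    have h4 := hr' a
    have h5 := length_lt_sz (w a)
    have h6 := h a
    refine Nat.add_le_add_right (Nat.mul_le_mul ?_ ?_) 1
    · omega
    · omega

/-- Instances of 3-SAT with padding. -/
abbrev Padded : Type :=
  {x : {F : Cnf // IsThree F} × List Unit // 2 ^ (3 * gsz x.1.1) ≤ x.2.length}

theorem poly_padF : Poly (fun x : Padded => x.1.1.1) := by
  have h1 : Poly (fun x : Padded => x.1) := Poly.val _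
  have h2 : Poly (fun x : {F : Cnf // IsThree F} => x.1) := Poly.val _
  exact h2.comp (Poly.fst h1)

theorem poly_padU : Poly (fun x : Padded => x.1.2) := by
  have h1 : Poly (fun x : Padded => x.1) := Poly.val _
  exact Poly.snd h1

theorem poly_verts : Poly (fun x : Padded => verts x.1.1.1) := by
  unfold verts
  refine Poly.filter (l := fun x : Padded => (List.range (gsz x.1.1.1)).flatMap
    fun i => (opts (occ x.1.1.1 i)).map fun L => (i, L)) (p := fun x u => goodV x.1.1.1 u) ?_ ?_
  · refine Poly.flatMap (l := fun x : Padded => List.range (gsz x.1.1.1))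
      (F := fun x i => (opts (occ x.1.1.1 i)).map fun L => (i, L)) ?_ ?_
    · exact UPoly.range (UPoly.comp uPoly_gsz poly_padF)
    · refine Poly.map (l := fun p : Padded × ℕ => opts (occ p.1.1.1.1 p.2))
        (F := fun p L => (p.2, L)) ?_ ?_
      · refine poly_opts (l := fun p : Padded × ℕ => occ p.1.1.1.1 p.2)
          (w := fun p => p.1.1.2) ?_ ?_ ?_
        · exact Poly.comp (g := fun x : Cnf × ℕ => occ x.1 x.2)
            (f := fun p : Padded × ℕ => (p.1.1.1.1, p.2)) poly_occ (Poly.pair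
            (Poly.comp (g := fun x : Padded => x.1.1.1) (f := fun p : Padded × ℕ => p.1)
              poly_padF (Poly.fst Poly.id)) (Poly.snd Poly.id))
        · exact Poly.comp (g := fun x : Padded => x.1.2) (f := fun p : Padded × ℕ => p.1)
              poly_padU (Poly.fst Poly.id)
        · intro p
          refine le_trans ?_ p.1.2
          exact Nat.pow_le_pow_right (by norm_num) (occ_length_le p.1.1.1.2 _)
      · exact Poly.pair (Poly.snd (Poly.fst Poly.id)) (Poly.snd Poly.id)
  · exact Poly.comp (g := fun x : Cnf × (ℕ × List (ℕ × Bool)) => goodV x.1 x.2)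
      (f := fun p : Padded × (ℕ × List (ℕ × Bool)) => (p.1.1.1.1, p.2)) poly_goodV
      (Poly.pair (Poly.comp (g := fun x : Padded => x.1.1.1)
        (f := fun p : Padded × (ℕ × List (ℕ × Bool)) => p.1) poly_padF (Poly.fst Poly.id))
        (Poly.snd Poly.id))

theorem poly_mat : Poly (fun x : Padded => mat x.1.1.1) := by
  unfold mat
  refine Poly.map (l := fun x : Padded => verts x.1.1.1)
    (F := fun x u => (verts x.1.1.1).map fun v => adjV u v) poly_verts ?_
  refine Poly.map (l := fun p : Padded × (ℕ × List (ℕ × Bool)) => verts p.1.1.1.1)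
    (F := fun p v => adjV p.2 v) (Poly.comp (g := fun x : Padded => verts x.1.1.1)
      (f := fun p : Padded × (ℕ × List (ℕ × Bool)) => p.1) poly_verts (Poly.fst Poly.id)) ?_
  exact Poly.comp (g := fun x : (ℕ × List (ℕ × Bool)) × (ℕ × List (ℕ × Bool)) => adjV x.1 x.2)
    (f := fun p : (Padded × (ℕ × List (ℕ × Bool))) × (ℕ × List (ℕ × Bool)) => (p.1.2, p.2))
    poly_adjV (Poly.pair (Poly.snd (Poly.fst Poly.id)) (Poly.snd Poly.id))

/-- The reduction to clique. -/
def toClique (F : {F : Cnf // IsThree F}) : List (List Bool) × ℕ := (mat F.1, gsz F.1)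

theorem toClique_run : ∃ (c : Cmd ℕ) (P : Polynomial ℕ), ∀ F : {F : Cnf // IsThree F},
    Runs c (inp (bits F)) (inp (bits (toClique F)))
      (P.eval ((bits F).length + 2 ^ (2 * (3 * gsz F.1) + 4))) := by
  refine fpt_run toClique (fun F => gsz F.1) (fun n => 3 * n) ?_ ?_
  · exact UPoly.mul (UPoly.const 3) (UPoly.comp uPoly_gsz (Poly.val _))
  · exact Poly.pair poly_mat (Poly.comp (g := gsz) (f := fun x : Padded => x.1.1.1)
      poly_gsz poly_padF)

theorem verts_length_le {F : Cnf} (hF : IsThree F) :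
    (verts F).length ≤ gsz F * 2 ^ (3 * gsz F) := by
  unfold verts
  refine (List.length_filter_le _ _).trans ?_
  rw [List.length_flatMap]
  have h1 : ∀ l : List ℕ, (l.map fun i => ((opts (occ F i)).map fun L => (i, L)).length).sum ≤
      l.length * 2 ^ (3 * gsz F) := by
    intro l
    induction l with
    | nil => simp
    | cons i l ih =>
      rw [List.map_cons, List.sum_cons, List.length_map, opts_length, List.length_cons]
      have h2 : 2 ^ (occ F i).length ≤ 2 ^ (3 * gsz F) :=
        Nat.pow_le_pow_right (by norm_num) (occ_length_le hF i)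
      rw [Nat.succ_mul]
      omega
  have h2 := h1 (List.range (gsz F))
  rwa [List.length_range] at h2

/-- The size of the reduction. -/
theorem sz_toClique_le (F : {F : Cnf // IsThree F}) :
    (bits (toClique F)).length ≤ 2 ^ (16 * gsz F.1) := by
  rw [bits_length]
  unfold toClique
  rw [sz_pair]
  have hpos := gsz_pos F.1
  have h1 := verts_length_le F.2
  set g := gsz F.1 with hg
  have h2 : (verts F.1).length ≤ 2 ^ (4 * g) := by
    refine h1.trans ?_
    have h3 : g ≤ 2 ^ g := Nat.lt_two_pow_self.le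
    calc g * 2 ^ (3 * g) ≤ 2 ^ g * 2 ^ (3 * g) := Nat.mul_le_mul_right _ h3
      _ = 2 ^ (4 * g) := by rw [← pow_add]; congr 1; ring
  have h3 : sz (mat F.1) ≤ 2 ^ (4 * g) * ((2 ^ (4 * g) * 4 + 1) + 1) + 1 := by
    refine (sz_le_length_mul (mat F.1) (2 ^ (4 * g) * 4 + 1) ?_).trans ?_
    · intro row hrow
      unfold mat at hrow
      rw [List.mem_map] at hrow
      obtain ⟨u, _, rfl⟩ := hrow
      refine (sz_le_length_mul _ 3 fun b _ => sz_bool_le b).trans ?_
      rw [List.length_map]
      omega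
    · rw [mat_length]
      exact Nat.add_le_add_right (Nat.mul_le_mul_right _ h2) 1
  have h4 : sz g ≤ 4 * g + 1 := (sz_nat_le g).trans (by
    have := Poly.size_le_self g
    omega)
  have h5 : g < 2 ^ g := Nat.lt_two_pow_self
  have h6 : 2 ^ g ≤ 2 ^ (4 * g) := Nat.pow_le_pow_right (by norm_num) (by omega)
  have h7 : 2 ^ 4 ≤ 2 ^ (4 * g) := Nat.pow_le_pow_right (by norm_num) (by omega)
  have h8 : 2 ^ (16 * g) = 2 ^ (4 * g) * (2 ^ (4 * g) * (2 ^ (4 * g) * 2 ^ (4 * g))) := by
    rw [← pow_add, ← pow_add, ← pow_add]; congr 1; ring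
  rw [h8]
  generalize 2 ^ (4 * g) = X at *
  have h9 : 16 ≤ X := h7
  have h10 : X * (X * 4 + 1 + 1) + 1 + (4 * g + 1) + 1 ≤ X * (X * (X * X)) := by
    have e1 : g ≤ X := by omega
    have e2 : X * X ≥ 16 * X := Nat.mul_le_mul_right X h9
    have e3 : X * (X * X) ≥ 16 * (X * X) := Nat.mul_le_mul_right _ h9
    have e4 : X * (X * (X * X)) ≥ 16 * (X * (X * X)) := Nat.mul_le_mul_right _ h9
    have e5 : X * (X * 4 + 1 + 1) = 4 * (X * X) + 2 * X := by ring
    rw [e5]
    omega
  omega

end Pool.Agent.NPC.H683MC
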